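import Pool.Agent.Helper799.UnionN.Compare

/-!
Systems of nets, admissible sequences, and the calibrating functionals.
-/

namespace H799N

open scoped BigOperators
open H799L

noncomputable section

universe u v

/-- A system of nets and roundings in the cube. -/
structure SysN (G : Type u) [Fintype G] where
  η : ℕ → ℝ
  δ : ℕ → ℝ
  N : ℕ → Set (Wd G)
  R : ℕ → Wd G → Wd G
  η_nonneg : ∀ k, 0 ≤ η k
  η_mono : ∀ j k, j ≤ k → η j ≤ η k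
  δ_nonneg : ∀ k, 0 ≤ δ k
  N_anti : ∀ k, N (k + 1) ⊆ N k
  R_zero : ∀ x, R 0 x = x
  R_mem : ∀ k x, R k x ∈ N k
  R_step : ∀ k x, hd (G := G) (Z := Bool) (R (k + 1) x) (R k x) ≤ δ k
  R_close : ∀ k j x, j ≤ k + 1 → hd (G := G) (Z := Bool) x (R j x) ≤ 2 * δ k
  sep : ∀ k, ∀ a ∈ N (k + 1), ∀ b ∈ N (k + 1), a ≠ b → δ k ≤ hd (G := G) (Z := Bool) a b

variable {G : Type u} [Fintype G]

/-- Admissible label sequences with labels in `B`. -/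
def Adm (S : SysN G) (k : ℕ) (B : Set (Wd G)) (a : ℕ → Wd G) : Prop :=
  (∀ j ≤ k, a j ∈ B) ∧ (∀ j, j + 1 ≤ k → a (j + 1) ∈ S.N (j + 1)) ∧
    ∀ i j, i < j → j ≤ k → hd (G := G) (Z := Bool) (a j) (a i) ≤ S.η j

lemma adm_const (S : SysN G) (k : ℕ) (B : Set (Wd G)) (w : Wd G) (hw : w ∈ B)
    (hN : w ∈ S.N k) : Adm S k B fun _ => w := by
  refine ⟨fun _ _ => hw, fun j hj => ?_, fun i j _ _ => ?_⟩
  · have h : ∀ l, j + 1 ≤ l → l ≤ k → w ∈ S.N (j + 1) := by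
      have : ∀ d, w ∈ S.N (j + 1 + d) → w ∈ S.N (j + 1) := by
        intro d
        induction d with
        | zero => exact id
        | succ d ih => exact fun h => ih (S.N_anti _ h)
      intro l h1 h2
      refine this (k - (j + 1)) ?_
      rwa [Nat.add_sub_cancel' hj]
    exact h k hj le_rfl
  · rw [hd_self]; exact S.η_nonneg _

/-- The lower and upper constants. -/
def rlo (ε : ℝ) : ℝ := (1 - ε) ^ 3 / (1 + ε) ^ 2

/-- The upper constant. -/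
def rhi (ε : ℝ) : ℝ := (1 + ε) ^ 2 * (1 + ε + ε ^ 2) / (1 - ε) ^ 2

/-- The jump factor. -/
def TT (ε : ℝ) : ℝ := lamb (ε ^ 2) (1 + ε ^ 2) / lamb (ε ^ 2) 1

lemma rlo_pos {ε : ℝ} (hε : 0 < ε) (hε1 : ε < 1) : 0 < rlo ε := by
  have : 0 < 1 - ε := by linarith
  unfold rlo; positivity

lemma rlo_le_one {ε : ℝ} (hε : 0 < ε) (hε1 : ε < 1) : rlo ε ≤ 1 := by
  unfold rlo
  rw [div_le_one (by positivity)]
  have h1 : (1 - ε) ^ 3 ≤ 1 := pow_le_one₀ (by linarith) (by linarith)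
  have h2 : 1 ≤ (1 + ε) ^ 2 := one_le_pow₀ (by linarith)
  linarith

lemma one_le_rhi {ε : ℝ} (hε : 0 < ε) (hε1 : ε < 1) : 1 ≤ rhi ε := by
  have h0 : 0 < 1 - ε := by linarith
  unfold rhi
  rw [le_div_iff₀ (by positivity), one_mul]
  have h1 : (1 - ε) ^ 2 ≤ 1 := pow_le_one₀ (by linarith) (by linarith)
  have h2 : 1 ≤ (1 + ε) ^ 2 := one_le_pow₀ (by linarith)
  nlinarith [sq_nonneg ε]

lemma one_le_TT {ε : ℝ} : 1 ≤ TT ε := by
  unfold TT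
  rw [le_div_iff₀ (by unfold lamb; positivity), one_mul]
  unfold lamb
  nlinarith [sq_nonneg ε, sq_nonneg (ε ^ 2)]

lemma TT_pow (ε : ℝ) (k : ℕ) :
    TT ε ^ k * lamb (ε ^ 2) 1 ^ k = lamb (ε ^ 2) (1 + ε ^ 2) ^ k := by
  unfold TT
  rw [← mul_pow, div_mul_cancel₀]
  unfold lamb
  positivity

section

variable {ε Λ : ℝ} {m : ℕ} (S : SysN G)

lemma ratio (hε : 0 < ε) (hε1 : ε < 1) (hΛ : 8 ≤ ε ^ 4 * Λ)
    (hδ : ∀ k, Λ * S.η k ≤ S.δ k) (σ : ℕ → Bool) {B B' : Set (Wd G)} {a b : ℕ → Wd G}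
    (ha : Adm S m B a) (hb : Adm S m B' b) (k : ℕ) (hk : k + 1 ≤ m) (hne : a (k + 1) ≠ b (k + 1))
    (habove : ∀ l, k + 1 < l → l ≤ m → a l = b l) :
    rlo ε * TT ε ^ k * Qn (ε ^ 2) 1 σ m a b ≤ Qn (ε ^ 2) (1 + ε ^ 2) σ m a b ∧
    Qn (ε ^ 2) (1 + ε ^ 2) σ m a b ≤ rhi ε * TT ε ^ k * Qn (ε ^ 2) 1 σ m a b := by
  have hκ : (0 : ℝ) ≤ ε ^ 2 := sq_nonneg _
  have hκ1 : ε ^ 2 ≤ 1 := pow_le_one₀ hε.le hε1.le
  have h0 : 0 < 1 - ε := by linarith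
  have close : ∀ (c : ℕ → Wd G) (B : Set (Wd G)), Adm S m B c → ∀ l ≤ k,
      hd (G := G) (Z := Bool) (c k) (c l) ≤ S.η k := by
    intro c B hc l hl
    rcases Nat.lt_or_ge l k with h | h
    · exact hc.2.2 l k h (by omega)
    · have : l = k := by omega
      subst this
      rw [hd_self]; exact S.η_nonneg _
  have hab : Λ * S.η k ≤ hd (G := G) (Z := Bool) (a (k + 1)) (b (k + 1)) :=
    (hδ k).trans (S.sep k _ (ha.2.1 k hk) _ (hb.2.1 k hk) hne)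
  have hΛ' : 8 ≤ ε ^ 2 * ε ^ 2 * Λ := by
    have : ε ^ 2 * ε ^ 2 * Λ = ε ^ 4 * Λ := by ring
    rw [this]; exact hΛ
  have A1 := approx (κ := ε ^ 2) (ξ := 1) (ε := ε) (Λ := Λ) (e := S.η k) hκ hκ1 zero_le_one hε
    hε1 hΛ' (S.η_nonneg k) σ k a b (close a B ha) (close b B' hb) hab
  have A2 := approx (κ := ε ^ 2) (ξ := 1 + ε ^ 2) (ε := ε) (Λ := Λ) (e := S.η k) hκ hκ1
    (by positivity) hε hε1 hΛ' (S.η_nonneg k) σ k a b (close a B ha) (close b B' hb) hab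
  have C := q_compare (ε := ε) (κ := ε ^ 2) (θ := ε ^ 2) hε hκ (by ring) hκ
    (ph (a (k + 1)) - ph (b (k + 1))) (ph (a k) - ph (b k))
  rw [one_smul] at A1
  set q1 := ‖(ph (a k) - ph (b k)) + (ph (a (k + 1)) - ph (b (k + 1)))‖ ^ 2
        + ε ^ 2 * ‖ph (a k) - ph (b k)‖ ^ 2
        + ε ^ 2 * ‖ph (a (k + 1)) - ph (b (k + 1))‖ ^ 2 with hq1
  set q2 := ‖(ph (a k) - ph (b k)) + (1 + ε ^ 2) • (ph (a (k + 1)) - ph (b (k + 1)))‖ ^ 2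
        + ε ^ 2 * ‖ph (a k) - ph (b k)‖ ^ 2
        + ε ^ 2 * ‖ph (a (k + 1)) - ph (b (k + 1))‖ ^ 2 with hq2
  have hTk : 0 < TT ε ^ k := by
    have := one_le_TT (ε := ε)
    positivity
  have hl1 : 0 < lamb (ε ^ 2) 1 ^ k := by
    have := lamb_ge_one hκ (zero_le_one (α := ℝ))
    positivity
  have hT := TT_pow ε k
  have hl2 : 0 < lamb (ε ^ 2) (1 + ε ^ 2) ^ k := by
    rw [← hT]; positivity
  have core1 : rlo ε * TT ε ^ k * Qn (ε ^ 2) 1 σ (k + 1) a b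
      ≤ Qn (ε ^ 2) (1 + ε ^ 2) σ (k + 1) a b := by
    have e1 : rlo ε * TT ε ^ k * Qn (ε ^ 2) 1 σ (k + 1) a b
        ≤ rlo ε * TT ε ^ k * ((1 + ε) ^ 2 * (lamb (ε ^ 2) 1 ^ k * q1)) :=
      mul_le_mul_of_nonneg_left A1.2 (mul_nonneg (rlo_pos hε hε1).le hTk.le)
    have e2 : rlo ε * TT ε ^ k * ((1 + ε) ^ 2 * (lamb (ε ^ 2) 1 ^ k * q1))
        = (1 - ε) ^ 2 * (lamb (ε ^ 2) (1 + ε ^ 2) ^ k * ((1 - ε) * q1)) := by
      rw [← hT]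
      unfold rlo
      field_simp
    rw [e2] at e1
    refine e1.trans (le_trans ?_ A2.1)
    refine mul_le_mul_of_nonneg_left ?_ (by positivity)
    exact mul_le_mul_of_nonneg_left C.1 hl2.le
  have core2 : Qn (ε ^ 2) (1 + ε ^ 2) σ (k + 1) a b
      ≤ rhi ε * TT ε ^ k * Qn (ε ^ 2) 1 σ (k + 1) a b := by
    have hrhi : 0 ≤ rhi ε := by linarith [one_le_rhi hε hε1]
    have e1 : rhi ε * TT ε ^ k * ((1 - ε) ^ 2 * (lamb (ε ^ 2) 1 ^ k * q1))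
        ≤ rhi ε * TT ε ^ k * Qn (ε ^ 2) 1 σ (k + 1) a b :=
      mul_le_mul_of_nonneg_left A1.1 (mul_nonneg hrhi hTk.le)
    have e2 : rhi ε * TT ε ^ k * ((1 - ε) ^ 2 * (lamb (ε ^ 2) 1 ^ k * q1))
        = (1 + ε) ^ 2 * (lamb (ε ^ 2) (1 + ε ^ 2) ^ k * ((1 + ε + ε ^ 2) * q1)) := by
      rw [← hT]
      unfold rhi
      field_simp
    rw [e2] at e1
    refine le_trans A2.2 (le_trans ?_ e1)
    refine mul_le_mul_of_nonneg_left ?_ (by positivity)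
    exact mul_le_mul_of_nonneg_left C.2 hl2.le
  rw [Qn_eq_above hκ 1 σ (k + 1) a b m hk habove,
    Qn_eq_above hκ (1 + ε ^ 2) σ (k + 1) a b m hk habove]
  have hp : 0 ≤ (1 + ε ^ 2) ^ (m - (k + 1)) := by positivity
  constructor
  · have := mul_le_mul_of_nonneg_left core1 hp
    linarith
  · have := mul_le_mul_of_nonneg_left core2 hp
    linarith

lemma exists_idx (hε : 0 < ε) (hε1 : ε < 1) (hΛ : 8 ≤ ε ^ 4 * Λ)
    (hδ : ∀ k, Λ * S.η k ≤ S.δ k) (σ : ℕ → Bool) {B B' : Set (Wd G)} {a b : ℕ → Wd G}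
    (ha : Adm S m B a) (hb : Adm S m B' b) :
    ∃ k, (rlo ε * TT ε ^ k * Qn (ε ^ 2) 1 σ m a b ≤ Qn (ε ^ 2) (1 + ε ^ 2) σ m a b ∧
      Qn (ε ^ 2) (1 + ε ^ 2) σ m a b ≤ rhi ε * TT ε ^ k * Qn (ε ^ 2) 1 σ m a b) ∧
      (∀ l, k + 1 < l → l ≤ m → a l = b l) ∧ k ≤ m ∧
      (k = 0 ∨ (k + 1 ≤ m ∧ Λ * S.η k ≤ hd (G := G) (Z := Bool) (a (k + 1)) (b (k + 1)))) := by
  classical
  by_cases h : ∃ j, j + 1 ≤ m ∧ a (j + 1) ≠ b (j + 1)
  · -- the top difference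
    have hex : ∃ d, d + 1 ≤ m ∧ a (m - d) ≠ b (m - d) := by
      obtain ⟨j, hj, hne⟩ := h
      refine ⟨m - (j + 1), by omega, ?_⟩
      have : m - (m - (j + 1)) = j + 1 := by omega
      rw [this]
      exact hne
    obtain ⟨hd1, hd2⟩ := Nat.find_spec hex
    set d := Nat.find hex with hd
    have hk1 : m - d = (m - d - 1) + 1 := by omega
    have habove : ∀ l, (m - d - 1) + 1 < l → l ≤ m → a l = b l := by
      intro l h1 h2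
      by_contra hne
      have h3 : m - l < d := by omega
      refine Nat.find_min hex h3 ⟨by omega, ?_⟩
      have : m - (m - l) = l := by omega
      rw [this]
      exact hne
    rw [hk1] at hd2
    refine ⟨m - d - 1, ratio S hε hε1 hΛ hδ σ ha hb (m - d - 1) (by omega) hd2 habove, habove,
      by omega, Or.inr ⟨by omega, ?_⟩⟩
    exact (hδ _).trans (S.sep _ _ (ha.2.1 _ (by omega)) _ (hb.2.1 _ (by omega)) hd2)
  · push Not at h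
    have h' : ∀ l, 0 < l → l ≤ m → a l = b l := by
      intro l h1 h2
      have := h (l - 1) (by omega)
      rwa [Nat.sub_add_cancel h1] at this
    have hκ : (0 : ℝ) ≤ ε ^ 2 := sq_nonneg _
    have e1 := Qn_eq_above hκ 1 σ 0 a b m (Nat.zero_le _) h'
    have e2 := Qn_eq_above hκ (1 + ε ^ 2) σ 0 a b m (Nat.zero_le _) h'
    rw [Qn_zero] at e1 e2
    have e3 : Qn (ε ^ 2) (1 + ε ^ 2) σ m a b = Qn (ε ^ 2) 1 σ m a b := by rw [e1, e2]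
    have hQ := Qn_nonneg (ε ^ 2) 1 σ m a b
    refine ⟨0, ⟨?_, ?_⟩, fun l h1 h2 => h' l (by omega) h2, Nat.zero_le _, Or.inl rfl⟩
    · rw [e3, pow_zero, mul_one]
      have := mul_le_mul_of_nonneg_right (rlo_le_one hε hε1) hQ
      linarith
    · rw [e3, pow_zero, mul_one]
      have := mul_le_mul_of_nonneg_right (one_le_rhi hε hε1) hQ
      linarith

/-- The calibration inequality. -/
theorem calib (hε : 0 < ε) (hε1 : ε < 1) (hΛ : 8 ≤ ε ^ 4 * Λ)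
    (hΛ2 : 2 * 64 ^ m * TT ε ^ m ≤ (ε ^ 2) ^ (2 * m) * Λ)
    (hδ : ∀ k, Λ * S.η k ≤ S.δ k) (σ σ' : ℕ → Bool) {B : Set (Wd G)} {a b a' b' : ℕ → Wd G}
    {k : ℕ} (hkm : k ≤ m)
    (hk : k = 0 ∨ (k + 1 ≤ m ∧ Λ * S.η k ≤ hd (G := G) (Z := Bool) (a (k + 1)) (b (k + 1))))
    (ha' : Adm S m B a') (hb' : Adm S m B b') :
    rlo ε * TT ε ^ (k - 1) *
      (inner ℝ (Pe (ε ^ 2) 1 σ' m a' - Pe (ε ^ 2) 1 σ' m b')
        (Pe (ε ^ 2) 1 σ m a - Pe (ε ^ 2) 1 σ m b)) ^ 2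
      ≤ ‖Pe (ε ^ 2) 1 σ m a - Pe (ε ^ 2) 1 σ m b‖ ^ 2
        * Qn (ε ^ 2) (1 + ε ^ 2) σ' m a' b' := by
  have hκ : (0 : ℝ) ≤ ε ^ 2 := sq_nonneg _
  have hκ0 : (0 : ℝ) < ε ^ 2 := by positivity
  have hκ1 : ε ^ 2 ≤ 1 := pow_le_one₀ hε.le hε1.le
  obtain ⟨k', ⟨hr1, -⟩, habove', hk'm, -⟩ := exists_idx S hε hε1 hΛ hδ σ' ha' hb'
  set v := Pe (ε ^ 2) 1 σ m a - Pe (ε ^ 2) 1 σ m b with hv
  set w := Pe (ε ^ 2) 1 σ' m a' - Pe (ε ^ 2) 1 σ' m b' with hw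
  set Q' := Qn (ε ^ 2) (1 + ε ^ 2) σ' m a' b' with hQ'
  have hQ'0 : 0 ≤ Q' := Qn_nonneg _ _ _ _ _ _
  have hwQ : Qn (ε ^ 2) 1 σ' m a' b' = ‖w‖ ^ 2 := rfl
  rw [hwQ] at hr1
  have hT1 := one_le_TT (ε := ε)
  have hT0 : 0 < TT ε := by linarith
  have hlo := rlo_pos hε hε1
  rcases Nat.lt_or_ge k' (k - 1) with hlt | hge
  · -- small steps
    have hk2 : k + 1 ≤ m ∧ Λ * S.η k ≤ hd (G := G) (Z := Bool) (a (k + 1)) (b (k + 1)) := by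
      rcases hk with h | h
      · omega
      · exact h
    obtain ⟨l₀, hl₀, hmax⟩ := Finset.exists_max_image (Finset.range (m + 1))
      (fun l => hd (G := G) (Z := Bool) (a' l) (b' l)) ⟨0, by simp⟩
    set H := hd (G := G) (Z := Bool) (a' l₀) (b' l₀) with hH
    have hH0 : 0 ≤ H := hd_nonneg _ _
    have hl₀m : l₀ ≤ m := by
      have := Finset.mem_range.mp hl₀
      omega
    have hmax' : ∀ l ≤ m, hd (G := G) (Z := Bool) (a' l) (b' l) ≤ H := fun l hl =>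
      hmax l (Finset.mem_range.mpr (by omega))
    -- H is small
    have hHη : H ≤ 2 * S.η k := by
      by_cases h : l₀ ≤ k' + 1
      · have e1 : a' (k' + 2) = b' (k' + 2) := habove' _ (by omega) (by omega)
        have e2 := ha'.2.2 l₀ (k' + 2) (by omega) (by omega)
        have e3 := hb'.2.2 l₀ (k' + 2) (by omega) (by omega)
        have e4 := hd_tri (G := G) (Z := Bool) (a' l₀) (a' (k' + 2)) (b' l₀)
        rw [hd_comm (G := G) (Z := Bool) (a' l₀) (a' (k' + 2))] at e4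
        rw [← e1] at e3
        have e5 := S.η_mono (k' + 2) k (by omega)
        linarith
      · have e1 : a' l₀ = b' l₀ := habove' _ (by omega) hl₀m
        rw [hH, e1, hd_self]
        have := S.η_nonneg k
        linarith
    have hin : |inner ℝ w v| ≤ 2 ^ m * (4 ^ m * H) :=
      inner_le_of_bounds w v (fun i => Pe_abs_le hκ1 σ m a b i)
        (Pe_sum_le hκ1 σ' hH0 m a' b' hmax') (by positivity)
    have hin2 : (inner ℝ w v) ^ 2 ≤ 64 ^ m * H ^ 2 := by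
      have e1 : (inner ℝ w v) ^ 2 = |inner ℝ w v| ^ 2 := (sq_abs _).symm
      rw [e1]
      refine (pow_le_pow_left₀ (abs_nonneg _) hin 2).trans (le_of_eq ?_)
      have : (64 : ℝ) ^ m = (2 ^ m * 4 ^ m) ^ 2 := by
        rw [← mul_pow, ← pow_mul, mul_comm m 2, pow_mul]; norm_num
      rw [this]; ring
    have hv2 : (ε ^ 2) ^ m * (Λ * S.η k) ≤ ‖v‖ ^ 2 := by
      refine le_trans ?_ (Qn_ge hκ hκ1 zero_le_one σ a b m (k + 1) hk2.1)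
      exact mul_le_mul_of_nonneg_left hk2.2 (by positivity)
    have hQ2 : (ε ^ 2) ^ m * H ≤ Q' :=
      Qn_ge hκ hκ1 (by positivity) σ' a' b' m l₀ hl₀m
    have hc : rlo ε * TT ε ^ (k - 1) ≤ TT ε ^ m := by
      have e1 : TT ε ^ (k - 1) ≤ TT ε ^ m := pow_le_pow_right₀ hT1 (by omega)
      have e2 := rlo_le_one hε hε1
      have e3 : 0 < TT ε ^ (k - 1) := by positivity
      nlinarith
    have hηk := S.η_nonneg k
    calc rlo ε * TT ε ^ (k - 1) * (inner ℝ w v) ^ 2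
        ≤ TT ε ^ m * (64 ^ m * H ^ 2) :=
          mul_le_mul hc hin2 (sq_nonneg _) (by positivity)
      _ = (64 ^ m * TT ε ^ m * H) * H := by ring
      _ ≤ (64 ^ m * TT ε ^ m * (2 * S.η k)) * H := by
          refine mul_le_mul_of_nonneg_right ?_ hH0
          exact mul_le_mul_of_nonneg_left hHη (by positivity)
      _ = (2 * 64 ^ m * TT ε ^ m) * (S.η k * H) := by ring
      _ ≤ ((ε ^ 2) ^ (2 * m) * Λ) * (S.η k * H) :=
          mul_le_mul_of_nonneg_right hΛ2 (by positivity)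
      _ = ((ε ^ 2) ^ m * (Λ * S.η k)) * ((ε ^ 2) ^ m * H) := by ring
      _ ≤ ‖v‖ ^ 2 * Q' := mul_le_mul hv2 hQ2 (by positivity) (sq_nonneg _)
  · -- large steps
    have h1 : (inner ℝ w v) ^ 2 ≤ ‖w‖ ^ 2 * ‖v‖ ^ 2 := by
      have := abs_real_inner_le_norm w v
      calc (inner ℝ w v) ^ 2 = |inner ℝ w v| ^ 2 := (sq_abs _).symm
        _ ≤ (‖w‖ * ‖v‖) ^ 2 := pow_le_pow_left₀ (abs_nonneg _) this 2
        _ = ‖w‖ ^ 2 * ‖v‖ ^ 2 := mul_pow _ _ _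
    have h2 : TT ε ^ (k - 1) ≤ TT ε ^ k' := pow_le_pow_right₀ hT1 hge
    calc rlo ε * TT ε ^ (k - 1) * (inner ℝ w v) ^ 2
        ≤ rlo ε * TT ε ^ k' * (‖w‖ ^ 2 * ‖v‖ ^ 2) :=
          mul_le_mul (mul_le_mul_of_nonneg_left h2 hlo.le) h1 (sq_nonneg _) (by positivity)
      _ = ‖v‖ ^ 2 * (rlo ε * TT ε ^ k' * ‖w‖ ^ 2) := by ring
      _ ≤ ‖v‖ ^ 2 * Q' := mul_le_mul_of_nonneg_left hr1 (sq_nonneg _)

/-- A weaker inequality valid for all vectors. -/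
theorem calib0 (hε : 0 < ε) (hε1 : ε < 1) (hΛ : 8 ≤ ε ^ 4 * Λ)
    (hδ : ∀ k, Λ * S.η k ≤ S.δ k) (σ' : ℕ → Bool) {B : Set (Wd G)} {a' b' : ℕ → Wd G}
    (ha' : Adm S m B a') (hb' : Adm S m B b') (v : EE G m) :
    rlo ε * (inner ℝ (Pe (ε ^ 2) 1 σ' m a' - Pe (ε ^ 2) 1 σ' m b') v) ^ 2
      ≤ ‖v‖ ^ 2 * Qn (ε ^ 2) (1 + ε ^ 2) σ' m a' b' := by
  obtain ⟨k', ⟨hr1, -⟩, -, -, -⟩ := exists_idx S hε hε1 hΛ hδ σ' ha' hb'
  set w := Pe (ε ^ 2) 1 σ' m a' - Pe (ε ^ 2) 1 σ' m b' with hw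
  set Q' := Qn (ε ^ 2) (1 + ε ^ 2) σ' m a' b' with hQ'
  have hwQ : Qn (ε ^ 2) 1 σ' m a' b' = ‖w‖ ^ 2 := rfl
  rw [hwQ] at hr1
  have hT1 := one_le_TT (ε := ε)
  have hlo := rlo_pos hε hε1
  have h1 : (inner ℝ w v) ^ 2 ≤ ‖w‖ ^ 2 * ‖v‖ ^ 2 := by
    have := abs_real_inner_le_norm w v
    calc (inner ℝ w v) ^ 2 = |inner ℝ w v| ^ 2 := (sq_abs _).symm
      _ ≤ (‖w‖ * ‖v‖) ^ 2 := pow_le_pow_left₀ (abs_nonneg _) this 2
      _ = ‖w‖ ^ 2 * ‖v‖ ^ 2 := mul_pow _ _ _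
  have h2 : (1 : ℝ) ≤ TT ε ^ k' := one_le_pow₀ hT1
  calc rlo ε * (inner ℝ w v) ^ 2 ≤ rlo ε * (‖w‖ ^ 2 * ‖v‖ ^ 2) :=
        mul_le_mul_of_nonneg_left h1 hlo.le
    _ ≤ rlo ε * TT ε ^ k' * (‖w‖ ^ 2 * ‖v‖ ^ 2) := by
        refine mul_le_mul_of_nonneg_right ?_ (by positivity)
        nlinarith
    _ = ‖v‖ ^ 2 * (rlo ε * TT ε ^ k' * ‖w‖ ^ 2) := by ring
    _ ≤ ‖v‖ ^ 2 * Q' := mul_le_mul_of_nonneg_left hr1 (sq_nonneg _)

end

end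

end H799N
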