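import Pool.Agent.Helper799.UnionN.Form

/-!
Comparison of the forms of the pieces with the global form, and the calibrating functionals.
-/

namespace H799N

open scoped BigOperators
open H799L

noncomputable section

universe u v

lemma q_compare {V : Type v} [NormedAddCommGroup V] [InnerProductSpace ℝ V] {ε κ θ : ℝ}
    (hε : 0 < ε) (hκ : 0 ≤ κ) (hθ : θ ^ 2 = ε ^ 2 * κ) (hθ0 : 0 ≤ θ) (α β : V) :
    (1 - ε) * (‖β + α‖ ^ 2 + κ * ‖β‖ ^ 2 + κ * ‖α‖ ^ 2)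
        ≤ ‖β + (1 + θ) • α‖ ^ 2 + κ * ‖β‖ ^ 2 + κ * ‖α‖ ^ 2 ∧
      ‖β + (1 + θ) • α‖ ^ 2 + κ * ‖β‖ ^ 2 + κ * ‖α‖ ^ 2
        ≤ (1 + ε + ε ^ 2) * (‖β + α‖ ^ 2 + κ * ‖β‖ ^ 2 + κ * ‖α‖ ^ 2) := by
  have e0 : β + (1 + θ) • α = (β + α) + θ • α := by rw [add_smul, one_smul]; abel
  have e1 : ‖β + (1 + θ) • α‖ ^ 2
      = ‖β + α‖ ^ 2 + 2 * (θ * inner ℝ (β + α) α) + θ ^ 2 * ‖α‖ ^ 2 := by
    rw [e0, norm_add_sq_real, inner_smul_right, norm_smul, mul_pow, Real.norm_eq_abs, sq_abs]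
  have e2 := abs_real_inner_le_norm (β + α) α
  have e3 : ε * |2 * (θ * inner ℝ (β + α) α)|
      ≤ ε * (ε * ‖β + α‖ ^ 2 + ε * κ * ‖α‖ ^ 2) := by
    rw [abs_mul, abs_mul, abs_of_nonneg hθ0, abs_of_pos (by norm_num : (0 : ℝ) < 2)]
    have h1 : ε * (2 * (θ * |inner ℝ (β + α) α|)) ≤ 2 * (ε * ‖β + α‖) * (θ * ‖α‖) := by
      have := mul_le_mul_of_nonneg_left e2 (by positivity : 0 ≤ ε * (2 * θ))
      linarith
    have h2 := sq_nonneg (ε * ‖β + α‖ - θ * ‖α‖)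
    have h3 : (θ * ‖α‖) ^ 2 = ε ^ 2 * κ * ‖α‖ ^ 2 := by rw [mul_pow, hθ]
    nlinarith
  have e4 := le_of_mul_le_mul_left e3 hε
  have e5 := abs_le.mp e4
  have h1 : 0 ≤ ‖β + α‖ ^ 2 := sq_nonneg _
  have h2 : 0 ≤ κ * ‖β‖ ^ 2 := by positivity
  have h3 : 0 ≤ κ * ‖α‖ ^ 2 := by positivity
  have h4 : 0 ≤ ε ^ 2 * ‖β + α‖ ^ 2 := by positivity
  have h5 : 0 ≤ ε * (κ * ‖β‖ ^ 2) := by positivity
  have h6 : 0 ≤ ε ^ 2 * (κ * ‖β‖ ^ 2) := by positivity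
  have h7 : 0 ≤ ε ^ 2 * (κ * ‖α‖ ^ 2) := by positivity
  rw [e1, hθ]
  constructor <;> nlinarith [e5.1, e5.2]

variable {G : Type u} [Fintype G]

lemma sqrt_ext {κ ξ : ℝ} (hκ : 0 ≤ κ) (σ : ℕ → Bool) (k : ℕ) (a b : ℕ → Wd G) :
    √(Qn κ ξ σ (k + 1) a b)
      = ‖ext κ 1 ξ (Pe κ ξ σ k a - Pe κ ξ σ k b)
          (Pe κ ξ σ k (fun _ => a (k + 1)) - Pe κ ξ σ k fun _ => b (k + 1))‖ := by
  rw [Qn_succ hκ]
  rw [Real.sqrt_eq_iff_mul_self_eq (by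
    have := Qn_nonneg κ ξ σ k a b
    have := Qn_nonneg κ ξ σ k (fun _ => a (k + 1)) (fun _ => b (k + 1))
    positivity) (norm_nonneg _)]
  rw [← pow_two, norm_ext_sq hκ, one_smul]
  rfl

/-- The two-label approximation of the form at a difference of top index `k + 1`. -/
lemma approx {κ ξ ε Λ e : ℝ} (hκ : 0 ≤ κ) (hκ1 : κ ≤ 1) (hξ : 0 ≤ ξ) (hε : 0 < ε) (hε1 : ε < 1)
    (hΛ : 8 ≤ ε ^ 2 * κ * Λ) (he : 0 ≤ e) (σ : ℕ → Bool) (k : ℕ) (a b : ℕ → Wd G)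
    (ha : ∀ l ≤ k, hd (G := G) (Z := Bool) (a k) (a l) ≤ e)
    (hb : ∀ l ≤ k, hd (G := G) (Z := Bool) (b k) (b l) ≤ e)
    (hab : Λ * e ≤ hd (G := G) (Z := Bool) (a (k + 1)) (b (k + 1))) :
    (1 - ε) ^ 2 * (lamb κ ξ ^ k * (‖(ph (a k) - ph (b k)) + ξ • (ph (a (k + 1)) - ph (b (k + 1)))‖ ^ 2
        + κ * ‖ph (a k) - ph (b k)‖ ^ 2 + κ * ‖ph (a (k + 1)) - ph (b (k + 1))‖ ^ 2))
      ≤ Qn κ ξ σ (k + 1) a b ∧
    Qn κ ξ σ (k + 1) a b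
      ≤ (1 + ε) ^ 2 * (lamb κ ξ ^ k *
        (‖(ph (a k) - ph (b k)) + ξ • (ph (a (k + 1)) - ph (b (k + 1)))‖ ^ 2
        + κ * ‖ph (a k) - ph (b k)‖ ^ 2 + κ * ‖ph (a (k + 1)) - ph (b (k + 1))‖ ^ 2)) := by
  set X := Pe κ ξ σ k a - Pe κ ξ σ k b with hX
  set X' := Pe κ ξ σ k (fun _ => a k) - Pe κ ξ σ k (fun _ => b k) with hX'
  set Y := Pe κ ξ σ k (fun _ => a (k + 1)) - Pe κ ξ σ k (fun _ => b (k + 1)) with hY
  set q := ‖(ph (a k) - ph (b k)) + ξ • (ph (a (k + 1)) - ph (b (k + 1)))‖ ^ 2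
        + κ * ‖ph (a k) - ph (b k)‖ ^ 2 + κ * ‖ph (a (k + 1)) - ph (b (k + 1))‖ ^ 2 with hq
  have hlam := lamb_ge_one hκ hξ
  set lk := lamb κ ξ ^ k with hlk
  have hlk0 : 0 < lk := by positivity
  have h1 : ‖ext κ 1 ξ X' Y‖ ^ 2 = lk * q := by
    rw [norm_ext_sq hκ, one_smul]
    have e1 := comb_const hκ ξ σ k 1 ξ (a k) (b k) (a (k + 1)) (b (k + 1))
    have e2 := comb_const hκ ξ σ k 1 0 (a k) (b k) (a (k + 1)) (b (k + 1))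
    have e3 := comb_const hκ ξ σ k 0 1 (a k) (b k) (a (k + 1)) (b (k + 1))
    simp only [one_smul, zero_smul, add_zero, zero_add] at e1 e2 e3
    rw [e1, e2, e3, hq]
    ring
  -- the error
  have hQa : ‖Pe κ ξ σ k a - Pe κ ξ σ k (fun _ => a k)‖ ≤ √(lk * e) := by
    refine Real.le_sqrt_of_sq_le ?_
    refine Qn_le hκ hξ σ he a (fun _ => a k) k fun l hl => ?_
    rw [hd_comm]
    exact ha l hl
  have hQb : ‖Pe κ ξ σ k b - Pe κ ξ σ k (fun _ => b k)‖ ≤ √(lk * e) := by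
    refine Real.le_sqrt_of_sq_le ?_
    refine Qn_le hκ hξ σ he b (fun _ => b k) k fun l hl => ?_
    rw [hd_comm]
    exact hb l hl
  have h2 : ‖X - X'‖ ≤ 2 * √(lk * e) := by
    have e1 : X - X' = (Pe κ ξ σ k a - Pe κ ξ σ k (fun _ => a k))
        - (Pe κ ξ σ k b - Pe κ ξ σ k (fun _ => b k)) := by
      rw [hX, hX']; abel
    rw [e1]
    refine (norm_sub_le _ _).trans ?_
    linarith
  have h3 : ‖ext κ 1 ξ X Y - ext κ 1 ξ X' Y‖ ^ 2 ≤ 8 * (lk * e) := by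
    rw [ext_sub, norm_ext_sq hκ, sub_self, smul_zero, add_zero, one_smul, norm_zero]
    have e1 : ‖X - X'‖ ^ 2 ≤ 4 * (lk * e) := by
      calc ‖X - X'‖ ^ 2 ≤ (2 * √(lk * e)) ^ 2 := pow_le_pow_left₀ (norm_nonneg _) h2 2
        _ = 4 * (lk * e) := by rw [mul_pow, Real.sq_sqrt (by positivity)]; ring
    have e2 : κ * ‖X - X'‖ ^ 2 ≤ 1 * ‖X - X'‖ ^ 2 :=
      mul_le_mul_of_nonneg_right hκ1 (sq_nonneg _)
    nlinarith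
  -- the main term dominates
  have h4 : κ * (Λ * e) ≤ q := by
    have e1 : κ * (Λ * e) ≤ κ * ‖ph (a (k + 1)) - ph (b (k + 1))‖ ^ 2 := by
      rw [ph_sub_sq]
      exact mul_le_mul_of_nonneg_left hab hκ
    have e2 : 0 ≤ κ * ‖ph (a k) - ph (b k)‖ ^ 2 := by positivity
    have e3 := sq_nonneg ‖(ph (a k) - ph (b k)) + ξ • (ph (a (k + 1)) - ph (b (k + 1)))‖
    rw [hq]
    linarith
  have h5 : 8 * (lk * e) ≤ ε ^ 2 * (lk * q) := by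
    have e1 : 8 * e ≤ ε ^ 2 * κ * Λ * e := mul_le_mul_of_nonneg_right hΛ he
    have e2 : ε ^ 2 * (κ * (Λ * e)) ≤ ε ^ 2 * q := mul_le_mul_of_nonneg_left h4 (by positivity)
    have e3 : 8 * e ≤ ε ^ 2 * q := by linarith
    have := mul_le_mul_of_nonneg_left e3 hlk0.le
    linarith
  have h6 : ‖ext κ 1 ξ X Y - ext κ 1 ξ X' Y‖ ≤ ε * ‖ext κ 1 ξ X' Y‖ := by
    refine (abs_le_of_sq_le_sq' ?_ (by positivity)).2
    rw [mul_pow, h1]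
    exact h3.trans h5
  have h7 : ‖ext κ 1 ξ X Y‖ ≤ (1 + ε) * ‖ext κ 1 ξ X' Y‖ := by
    have e1 := norm_add_le (ext κ 1 ξ X Y - ext κ 1 ξ X' Y) (ext κ 1 ξ X' Y)
    rw [sub_add_cancel] at e1
    linarith
  have h8 : (1 - ε) * ‖ext κ 1 ξ X' Y‖ ≤ ‖ext κ 1 ξ X Y‖ := by
    have e1 := norm_sub_norm_le (ext κ 1 ξ X' Y) (ext κ 1 ξ X Y)
    rw [norm_sub_rev] at e1
    linarith
  have h9 : Qn κ ξ σ (k + 1) a b = ‖ext κ 1 ξ X Y‖ ^ 2 := by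
    rw [← sqrt_ext hκ, Real.sq_sqrt (Qn_nonneg _ _ _ _ _ _)]
  rw [h9, ← h1]
  constructor
  · rw [← mul_pow]
    exact pow_le_pow_left₀ (mul_nonneg (by linarith) (norm_nonneg _)) h8 2
  · rw [← mul_pow]
    exact pow_le_pow_left₀ (norm_nonneg _) h7 2

end

end H799N
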