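import Pool.Agent.Helper799.UnionL.Euclid

/-!
The Euclidean forms on trees and on the pieces.
-/

namespace H799N

open scoped BigOperators
open H799L

noncomputable section

universe u v

/-- Index types. -/
def Ix (G : Type u) : ℕ → Type u
  | 0 => G
  | k + 1 => Ix G k × Fin 3

instance Ix.fintype (G : Type u) [Fintype G] : ∀ k, Fintype (Ix G k)
  | 0 => inferInstanceAs (Fintype G)
  | k + 1 =>
    haveI := Ix.fintype G k
    inferInstanceAs (Fintype (Ix G k × Fin 3))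

/-- The Euclidean spaces. -/
abbrev EE (G : Type u) (k : ℕ) : Type u := EuclideanSpace ℝ (Ix G k)

variable {G : Type u}

/-- The combination of two vectors. -/
def ext (κ c₁ c₂ : ℝ) {k : ℕ} (x y : EE G k) : EE G (k + 1) :=
  WithLp.toLp 2 fun i : Ix G k × Fin 3 =>
    (![c₁ * x i.1 + c₂ * y i.1, √κ * x i.1, √κ * y i.1] : Fin 3 → ℝ) i.2

lemma ext_apply (κ c₁ c₂ : ℝ) {k : ℕ} (x y : EE G k) (p : Ix G k) (c : Fin 3) :
    (ext κ c₁ c₂ x y : EE G (k + 1)) ((p, c) : Ix G k × Fin 3)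
      = (![c₁ * x p + c₂ * y p, √κ * x p, √κ * y p] : Fin 3 → ℝ) c := rfl

lemma ext_comb (κ c₁ c₂ a b : ℝ) {k : ℕ} (x x' z z' y y' w w' : EE G k) :
    a • (ext κ c₁ c₂ x y - ext κ c₁ c₂ x' y') + b • (ext κ c₁ c₂ z w - ext κ c₁ c₂ z' w')
      = ext κ c₁ c₂ (a • (x - x') + b • (z - z')) (a • (y - y') + b • (w - w')) := by
  ext i
  obtain ⟨p, c⟩ : Ix G k × Fin 3 := i
  simp only [PiLp.add_apply, PiLp.smul_apply, PiLp.sub_apply, ext_apply, smul_eq_mul]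
  fin_cases c <;> simp <;> ring

lemma ext_sub (κ c₁ c₂ : ℝ) {k : ℕ} (x x' y y' : EE G k) :
    ext κ c₁ c₂ x y - ext κ c₁ c₂ x' y' = ext κ c₁ c₂ (x - x') (y - y') := by
  have h := ext_comb κ c₁ c₂ 1 0 x x' x x' y y' y y'
  simpa using h

variable [Fintype G]

lemma sum_Ix {k : ℕ} (f : Ix G k × Fin 3 → ℝ) :
    ∑ i : Ix G (k + 1), f i = ∑ p : Ix G k, (f (p, 0) + f (p, 1) + f (p, 2)) := by
  have h1 : ∑ i : Ix G (k + 1), f i = ∑ i : Ix G k × Fin 3, f i := rfl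
  rw [h1, Fintype.sum_prod_type]
  refine Finset.sum_congr rfl fun p _ => ?_
  rw [Fin.sum_univ_three]

lemma norm_ext_sq {κ : ℝ} (hκ : 0 ≤ κ) (c₁ c₂ : ℝ) {k : ℕ} (x y : EE G k) :
    ‖ext κ c₁ c₂ x y‖ ^ 2 = ‖c₁ • x + c₂ • y‖ ^ 2 + κ * ‖x‖ ^ 2 + κ * ‖y‖ ^ 2 := by
  rw [EuclideanSpace.norm_sq_eq, EuclideanSpace.norm_sq_eq, EuclideanSpace.norm_sq_eq,
    EuclideanSpace.norm_sq_eq]
  have h1 := sum_Ix (G := G) (k := k) fun i => ‖(ext κ c₁ c₂ x y : EE G (k + 1)) i‖ ^ 2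
  refine h1.trans ?_
  rw [Finset.mul_sum, Finset.mul_sum, ← Finset.sum_add_distrib, ← Finset.sum_add_distrib]
  refine Finset.sum_congr rfl fun p _ => ?_
  simp only [ext_apply, PiLp.add_apply, PiLp.smul_apply, smul_eq_mul, Real.norm_eq_abs, sq_abs]
  simp only [Matrix.cons_val_zero, Matrix.cons_val_one, Matrix.cons_val]
  rw [mul_pow, mul_pow, Real.sq_sqrt hκ]

/-- The vector of a point of the cube. -/
def ph (x : Wd G) : EE G 0 := WithLp.toLp 2 fun g : G => if x g = true then (1 : ℝ) else 0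

lemma ph_sub_sq (x y : Wd G) : ‖ph x - ph y‖ ^ 2 = hd (G := G) (Z := Bool) x y := by
  rw [EuclideanSpace.norm_sq_eq, hd_eq_sum]
  refine Finset.sum_congr rfl fun g _ => ?_
  rw [Real.norm_eq_abs, sq_abs]
  rfl

/-- The global form. -/
def Psi (κ : ℝ) : ∀ k, Tr (Wd G) k → EE G k
  | 0, x => ph x
  | k + 1, t => ext κ 1 1 (Psi κ k t.1) (Psi κ k t.2)

/-- The form on the piece `σ`. -/
def Pe (κ ξ : ℝ) (σ : ℕ → Bool) : ∀ k, (ℕ → Wd G) → EE G k
  | 0, a => ph (a 0)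
  | k + 1, a => if σ k = true then ext κ ξ 1 (Pe κ ξ σ k fun _ => a (k + 1)) (Pe κ ξ σ k a)
      else ext κ 1 ξ (Pe κ ξ σ k a) (Pe κ ξ σ k fun _ => a (k + 1))

lemma mk_const {W : Type u} (σ : ℕ → Bool) (w : W) : ∀ k, mk σ (fun _ => w) k = cst k w
  | 0 => rfl
  | k + 1 => by
    simp only [mk, mk_const σ w k]
    split_ifs <;> rfl

lemma Psi_pr (κ : ℝ) {k : ℕ} (t t' : Tr (Wd G) k) :
    Psi κ (k + 1) (pr t t') = ext κ 1 1 (Psi κ k t) (Psi κ k t') := rfl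

lemma Psi_mk (κ : ℝ) (σ : ℕ → Bool) : ∀ (k : ℕ) (a : ℕ → Wd G),
    Psi κ k (mk σ a k) = Pe κ 1 σ k a
  | 0, a => rfl
  | k + 1, a => by
    have h1 := Psi_mk κ σ k a
    have h2 := Psi_mk κ σ k fun _ => a (k + 1)
    rw [mk_const] at h2
    by_cases h : σ k = true
    · simp only [mk, Pe, h, if_true]
      rw [Psi_pr, h1, h2]
    · simp only [mk, Pe, h]
      simp only [Bool.false_eq_true, if_false]
      rw [Psi_pr, h1, h2]

lemma Pe_congr {κ ξ : ℝ} {σ σ' : ℕ → Bool} {a a' : ℕ → Wd G} :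
    ∀ k, (∀ j, j < k → σ j = σ' j) → (∀ j, j ≤ k → a j = a' j) →
      Pe κ ξ σ k a = Pe κ ξ σ' k a'
  | 0, _, h2 => by simp only [Pe, h2 0 le_rfl]
  | k + 1, h1, h2 => by
    have ih := Pe_congr (κ := κ) (ξ := ξ) (a := a) (a' := a') k (fun j hj => h1 j (by omega))
      (fun j hj => h2 j (by omega))
    have ih2 := Pe_congr (κ := κ) (ξ := ξ) (σ := σ) (σ' := σ') (a := fun _ => a (k + 1))
      (a' := fun _ => a' (k + 1)) k (fun j hj => h1 j (by omega))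
      (fun j _ => h2 (k + 1) le_rfl)
    simp only [Pe, ih, ih2, h1 k (by omega)]

/-- The quadratic form of a piece. -/
def Qn (κ ξ : ℝ) (σ : ℕ → Bool) (k : ℕ) (a b : ℕ → Wd G) : ℝ :=
  ‖Pe κ ξ σ k a - Pe κ ξ σ k b‖ ^ 2

lemma Qn_nonneg (κ ξ : ℝ) (σ : ℕ → Bool) (k : ℕ) (a b : ℕ → Wd G) : 0 ≤ Qn κ ξ σ k a b :=
  sq_nonneg _

lemma Qn_zero (κ ξ : ℝ) (σ : ℕ → Bool) (a b : ℕ → Wd G) :
    Qn κ ξ σ 0 a b = hd (G := G) (Z := Bool) (a 0) (b 0) := ph_sub_sq _ _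

lemma Qn_succ {κ : ℝ} (hκ : 0 ≤ κ) (ξ : ℝ) (σ : ℕ → Bool) (k : ℕ) (a b : ℕ → Wd G) :
    Qn κ ξ σ (k + 1) a b
      = ‖(Pe κ ξ σ k a - Pe κ ξ σ k b)
          + ξ • (Pe κ ξ σ k (fun _ => a (k + 1)) - Pe κ ξ σ k fun _ => b (k + 1))‖ ^ 2
        + κ * Qn κ ξ σ k a b
        + κ * Qn κ ξ σ k (fun _ => a (k + 1)) (fun _ => b (k + 1)) := by
  unfold Qn
  by_cases h : σ k = true
  · simp only [Pe, h, if_true]
    rw [ext_sub, norm_ext_sq hκ, one_smul, add_comm (ξ • _)]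
    ring
  · simp only [Pe, h]
    simp only [Bool.false_eq_true, if_false]
    rw [ext_sub, norm_ext_sq hκ, one_smul]

/-- The growth factor. -/
def lamb (κ ξ : ℝ) : ℝ := (1 + ξ) ^ 2 + 2 * κ

lemma comb_const {κ : ℝ} (hκ : 0 ≤ κ) (ξ : ℝ) (σ : ℕ → Bool) (k : ℕ) (c d : ℝ)
    (x x' y y' : Wd G) :
    ‖c • (Pe κ ξ σ k (fun _ => x) - Pe κ ξ σ k fun _ => x')
        + d • (Pe κ ξ σ k (fun _ => y) - Pe κ ξ σ k fun _ => y')‖ ^ 2
      = lamb κ ξ ^ k * ‖c • (ph x - ph x') + d • (ph y - ph y')‖ ^ 2 := by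
  induction k with
  | zero => simp only [Pe, pow_zero, one_mul]
  | succ k ih =>
    by_cases h : σ k = true
    · simp only [Pe, h, if_true]
      rw [ext_comb, norm_ext_sq hκ, ← add_smul, norm_smul, mul_pow, Real.norm_eq_abs, sq_abs,
        ih, pow_succ]
      unfold lamb
      ring
    · simp only [Pe, h]
      simp only [Bool.false_eq_true, if_false]
      rw [ext_comb, norm_ext_sq hκ, ← add_smul, norm_smul, mul_pow, Real.norm_eq_abs, sq_abs,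
        ih, pow_succ]
      unfold lamb
      ring

lemma Qn_const {κ : ℝ} (hκ : 0 ≤ κ) (ξ : ℝ) (σ : ℕ → Bool) (k : ℕ) (x y : Wd G) :
    Qn κ ξ σ k (fun _ => x) (fun _ => y) = lamb κ ξ ^ k * hd (G := G) (Z := Bool) x y := by
  have h := comb_const hκ ξ σ k 1 0 x y x y
  simp only [one_smul, zero_smul, add_zero] at h
  unfold Qn
  rw [h, ph_sub_sq]

lemma Qn_eq_top {κ : ℝ} (hκ : 0 ≤ κ) (ξ : ℝ) (σ : ℕ → Bool) (k : ℕ) (a b : ℕ → Wd G)
    (h : a (k + 1) = b (k + 1)) : Qn κ ξ σ (k + 1) a b = (1 + κ) * Qn κ ξ σ k a b := by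
  rw [Qn_succ hκ, h]
  unfold Qn
  simp only [sub_self, smul_zero, add_zero, norm_zero]
  ring

lemma Qn_eq_above {κ : ℝ} (hκ : 0 ≤ κ) (ξ : ℝ) (σ : ℕ → Bool) (j : ℕ) (a b : ℕ → Wd G)
    (k : ℕ) (hjk : j ≤ k) (h : ∀ l, j < l → l ≤ k → a l = b l) :
    Qn κ ξ σ k a b = (1 + κ) ^ (k - j) * Qn κ ξ σ j a b := by
  induction k, hjk using Nat.le_induction with
  | base => simp
  | succ k hk ih =>
    rw [Qn_eq_top hκ ξ σ k a b (h (k + 1) (by omega) le_rfl),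
      ih fun l h1 h2 => h l h1 (by omega)]
    have : k + 1 - j = (k - j) + 1 := by omega
    rw [this, pow_succ]
    ring

lemma lamb_ge_one {κ ξ : ℝ} (hκ : 0 ≤ κ) (hξ : 0 ≤ ξ) : 1 ≤ lamb κ ξ := by
  unfold lamb; nlinarith

lemma Qn_le {κ ξ : ℝ} (hκ : 0 ≤ κ) (hξ : 0 ≤ ξ) (σ : ℕ → Bool) {H : ℝ} (hH : 0 ≤ H)
    (a b : ℕ → Wd G) (k : ℕ) (h : ∀ l ≤ k, hd (G := G) (Z := Bool) (a l) (b l) ≤ H) :
    Qn κ ξ σ k a b ≤ lamb κ ξ ^ k * H := by
  induction k with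
  | zero => rw [Qn_zero, pow_zero, one_mul]; exact h 0 le_rfl
  | succ k ih =>
    have ih := ih fun l hl => h l (by omega)
    have h1 : Qn κ ξ σ k (fun _ => a (k + 1)) (fun _ => b (k + 1)) ≤ lamb κ ξ ^ k * H := by
      rw [Qn_const hκ]
      have := lamb_ge_one hκ hξ
      exact mul_le_mul_of_nonneg_left (h (k + 1) le_rfl) (by positivity)
    rw [Qn_succ hκ]
    set X := Pe κ ξ σ k a - Pe κ ξ σ k b with hX
    set Y := Pe κ ξ σ k (fun _ => a (k + 1)) - Pe κ ξ σ k fun _ => b (k + 1) with hY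
    set M := lamb κ ξ ^ k * H with hM
    have hM0 : 0 ≤ M := by
      have := lamb_ge_one hκ hξ
      positivity
    have e1 : ‖X‖ ≤ √M := Real.le_sqrt_of_sq_le ih
    have e2 : ‖Y‖ ≤ √M := Real.le_sqrt_of_sq_le h1
    have e3 : ‖X + ξ • Y‖ ≤ (1 + ξ) * √M := by
      refine (norm_add_le _ _).trans ?_
      rw [norm_smul, Real.norm_of_nonneg hξ]
      nlinarith [mul_le_mul_of_nonneg_left e2 hξ]
    have e4 : ‖X + ξ • Y‖ ^ 2 ≤ (1 + ξ) ^ 2 * M := by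
      calc ‖X + ξ • Y‖ ^ 2 ≤ ((1 + ξ) * √M) ^ 2 := pow_le_pow_left₀ (norm_nonneg _) e3 2
        _ = (1 + ξ) ^ 2 * M := by rw [mul_pow, Real.sq_sqrt hM0]
    have e5 := mul_le_mul_of_nonneg_left ih hκ
    have e6 := mul_le_mul_of_nonneg_left h1 hκ
    have e7 : lamb κ ξ ^ (k + 1) * H = (1 + ξ) ^ 2 * M + κ * M + κ * M := by
      rw [hM, pow_succ]; unfold lamb; ring
    rw [e7]
    linarith

lemma Qn_ge {κ ξ : ℝ} (hκ : 0 ≤ κ) (hκ1 : κ ≤ 1) (hξ : 0 ≤ ξ) (σ : ℕ → Bool)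
    (a b : ℕ → Wd G) (k : ℕ) : ∀ l ≤ k,
    κ ^ k * hd (G := G) (Z := Bool) (a l) (b l) ≤ Qn κ ξ σ k a b := by
  induction k with
  | zero =>
    intro l hl
    have : l = 0 := by omega
    subst this
    rw [Qn_zero, pow_zero, one_mul]
  | succ k ih =>
    intro l hl
    rw [Qn_succ hκ]
    have h0 := sq_nonneg ‖(Pe κ ξ σ k a - Pe κ ξ σ k b)
      + ξ • (Pe κ ξ σ k (fun _ => a (k + 1)) - Pe κ ξ σ k fun _ => b (k + 1))‖
    have h1 := mul_nonneg hκ (Qn_nonneg κ ξ σ k a b)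
    have h2 := mul_nonneg hκ (Qn_nonneg κ ξ σ k (fun _ => a (k + 1)) (fun _ => b (k + 1)))
    rcases Nat.lt_or_ge l (k + 1) with hl' | hl'
    · have h3 := mul_le_mul_of_nonneg_left (ih l (by omega)) hκ
      rw [pow_succ]
      linarith
    · have : l = k + 1 := by omega
      subst this
      have h4 : κ ^ k * hd (G := G) (Z := Bool) (a (k + 1)) (b (k + 1))
          ≤ Qn κ ξ σ k (fun _ => a (k + 1)) (fun _ => b (k + 1)) := by
        rw [Qn_const hκ]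
        refine mul_le_mul_of_nonneg_right ?_ (hd_nonneg _ _)
        exact (pow_le_one₀ hκ hκ1).trans (one_le_pow₀ (lamb_ge_one hκ hξ))
      have h3 := mul_le_mul_of_nonneg_left h4 hκ
      rw [pow_succ]
      linarith

/-! ### entrywise bounds -/

lemma ph_sub_abs_le (x y : Wd G) (g : G) : |(ph x - ph y : EE G 0) g| ≤ 1 := by
  show |(if x g = true then (1 : ℝ) else 0) - (if y g = true then 1 else 0)| ≤ 1
  split_ifs <;> simp

lemma Pe_abs_le {κ : ℝ} (hκ1 : κ ≤ 1) (σ : ℕ → Bool) (k : ℕ) :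
    ∀ (a b : ℕ → Wd G) (i : Ix G k), |(Pe κ 1 σ k a - Pe κ 1 σ k b) i| ≤ 2 ^ k := by
  have hs : √κ ≤ 1 := by
    calc √κ ≤ √1 := Real.sqrt_le_sqrt hκ1
      _ = 1 := Real.sqrt_one
  have hs0 := Real.sqrt_nonneg κ
  induction k with
  | zero =>
    intro a b i
    rw [pow_zero]
    exact ph_sub_abs_le (a 0) (b 0) i
  | succ k ih =>
    intro a b i
    have key : ∀ (c : Fin 3) (x y : EE G k) (p : Ix G k), |x p| ≤ 2 ^ k → |y p| ≤ 2 ^ k →
        |(ext κ 1 1 x y : EE G (k + 1)) ((p, c) : Ix G k × Fin 3)| ≤ 2 ^ (k + 1) := by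
      intro c x y p hx hy
      rw [ext_apply]
      have h2 : (0 : ℝ) < 2 ^ k := by positivity
      have e1 : |1 * x p + 1 * y p| ≤ 2 ^ (k + 1) := by
        rw [one_mul, one_mul, pow_succ]
        have := abs_add_le (x p) (y p)
        linarith
      have e2 : ∀ t : ℝ, |t| ≤ 2 ^ k → |√κ * t| ≤ 2 ^ (k + 1) := by
        intro t ht
        rw [abs_mul, abs_of_nonneg hs0, pow_succ]
        have := mul_le_mul hs ht (abs_nonneg t) zero_le_one
        linarith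
      fin_cases c
      · exact e1
      · exact e2 _ hx
      · exact e2 _ hy
    obtain ⟨p, c⟩ : Ix G k × Fin 3 := i
    have h1 := ih a b p
    have h2 := ih (fun _ => a (k + 1)) (fun _ => b (k + 1)) p
    by_cases h : σ k = true
    · simp only [Pe, h, if_true]
      rw [ext_sub]
      exact key c _ _ p h2 h1
    · simp only [Pe, h]
      simp only [Bool.false_eq_true, if_false]
      rw [ext_sub]
      exact key c _ _ p h1 h2

lemma ph_sub_sum (x y : Wd G) : ∑ g : G, |(ph x - ph y : EE G 0) g| = hd (G := G) (Z := Bool) x y := by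
  rw [hd_eq_sum]
  refine Finset.sum_congr rfl fun g _ => ?_
  show |(if x g = true then (1 : ℝ) else 0) - (if y g = true then 1 else 0)| = _
  split_ifs <;> simp

lemma Pe_sum_le {κ : ℝ} (hκ1 : κ ≤ 1) (σ : ℕ → Bool) {H : ℝ} (hH : 0 ≤ H) (k : ℕ) :
    ∀ (a b : ℕ → Wd G), (∀ l ≤ k, hd (G := G) (Z := Bool) (a l) (b l) ≤ H) →
      ∑ i, |(Pe κ 1 σ k a - Pe κ 1 σ k b) i| ≤ 4 ^ k * H := by
  have hs : √κ ≤ 1 := by
    calc √κ ≤ √1 := Real.sqrt_le_sqrt hκ1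
      _ = 1 := Real.sqrt_one
  have hs0 := Real.sqrt_nonneg κ
  induction k with
  | zero =>
    intro a b h
    rw [pow_zero, one_mul]
    exact (ph_sub_sum (a 0) (b 0)).le.trans (h 0 le_rfl)
  | succ k ih =>
    intro a b h
    have key : ∀ (x y : EE G k), ∑ p, |x p| ≤ 4 ^ k * H → ∑ p, |y p| ≤ 4 ^ k * H →
        ∑ i, |(ext κ 1 1 x y : EE G (k + 1)) i| ≤ 4 ^ (k + 1) * H := by
      intro x y hx hy
      have h1 := sum_Ix (G := G) (k := k) fun i => |(ext κ 1 1 x y : EE G (k + 1)) i|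
      refine h1.le.trans ?_
      have h2 : ∀ p : Ix G k, |(ext κ 1 1 x y : EE G (k + 1)) ((p, 0) : Ix G k × Fin 3)|
          + |(ext κ 1 1 x y : EE G (k + 1)) ((p, 1) : Ix G k × Fin 3)|
          + |(ext κ 1 1 x y : EE G (k + 1)) ((p, 2) : Ix G k × Fin 3)|
          ≤ 2 * |x p| + 2 * |y p| := by
        intro p
        simp only [ext_apply, Matrix.cons_val_zero, Matrix.cons_val_one, Matrix.cons_val]
        have e1 := abs_add_le (1 * x p) (1 * y p)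
        rw [one_mul, one_mul] at e1 ⊢
        rw [abs_mul, abs_mul, abs_of_nonneg hs0]
        have e2 := mul_le_mul_of_nonneg_right hs (abs_nonneg (x p))
        have e3 := mul_le_mul_of_nonneg_right hs (abs_nonneg (y p))
        linarith
      refine (Finset.sum_le_sum fun p _ => h2 p).trans ?_
      rw [Finset.sum_add_distrib, ← Finset.mul_sum, ← Finset.mul_sum, pow_succ]
      linarith
    have h1 := ih a b fun l hl => h l (by omega)
    have h2 := ih (fun _ => a (k + 1)) (fun _ => b (k + 1)) fun _ _ => h (k + 1) le_rfl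
    by_cases h' : σ k = true
    · simp only [Pe, h', if_true]
      rw [ext_sub]
      exact key _ _ h2 h1
    · simp only [Pe, h']
      simp only [Bool.false_eq_true, if_false]
      rw [ext_sub]
      exact key _ _ h1 h2

lemma inner_le_of_bounds {ι : Type*} [Fintype ι] (v w : EuclideanSpace ℝ ι) {A B : ℝ}
    (hw : ∀ i, |w i| ≤ A) (hv : ∑ i, |v i| ≤ B) (hA : 0 ≤ A) :
    |inner ℝ v w| ≤ A * B := by
  have h1 : inner ℝ v w = ∑ i, v i * w i := by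
    rw [PiLp.inner_apply]
    refine Finset.sum_congr rfl fun i _ => ?_
    simp [mul_comm]
  rw [h1]
  refine (Finset.abs_sum_le_sum_abs _ _).trans ?_
  calc ∑ i, |v i * w i| ≤ ∑ i, |v i| * A := by
        refine Finset.sum_le_sum fun i _ => ?_
        rw [abs_mul]
        exact mul_le_mul_of_nonneg_left (hw i) (abs_nonneg _)
    _ = A * ∑ i, |v i| := by rw [← Finset.sum_mul, mul_comm]
    _ ≤ A * B := mul_le_mul_of_nonneg_left hv hA

end

end H799N
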