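import Pool.Agent.Helper799.UnionN.Step
import Pool.Agent.Helper799.UnionL.Lower

/-!
The system of nets, the recursion, and the lower bound.
-/

namespace H799N

open scoped BigOperators
open H799L

noncomputable section

universe u v

lemma eta_mono {e q : ℝ} (he : 0 < e) (hq : 1 ≤ q) : ∀ j k, j ≤ k → eta e q j ≤ eta e q k := by
  intro j k hjk
  induction k, hjk using Nat.le_induction with
  | base => exact le_rfl
  | succ k _ ih =>
    have h1 := mul_eta_le (e := e) (q := q) he (by linarith) k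
    have h2 := eta_nonneg (e := e) (q := q) he (by linarith) k
    nlinarith

/-- Existence of the system. -/
theorem exists_SysN {Λ e q : ℝ} (hΛ : 0 < Λ) (he : 0 < e) (hq2 : 2 ≤ q)
    (G : Type u) [Fintype G] [DecidableEq G] :
    ∃ S : SysN G, S.η = eta e q ∧ (S.δ = fun k => Λ * eta e q k) := by
  have hq : 0 < q := by linarith
  have hδ : ∀ k, 0 ≤ Λ * eta e q k := fun k => mul_nonneg hΛ.le (eta_nonneg he hq k)
  obtain ⟨N, R, h1, h2, h3, h4, h5⟩ := exists_nets (W := Wd G) (hd (G := G) (Z := Bool))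
    (fun x => hd_self (G := G) (Z := Bool) x) (fun x y => hd_comm (G := G) (Z := Bool) x y)
    (fun k => Λ * eta e q k) hδ
  have hdouble : ∀ k, 2 * (Λ * eta e q k) ≤ Λ * eta e q (k + 1) := by
    intro k
    have := mul_eta_le he hq k
    have h0 := eta_nonneg he hq k
    nlinarith [mul_nonneg hΛ.le h0]
  have hclose1 : ∀ j x, hd (G := G) (Z := Bool) x (R (j + 1) x) ≤ 2 * (Λ * eta e q j) := by
    intro j x
    induction j with
    | zero =>
      have := h5 0 x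
      rw [h3, hd_comm] at this
      have := hδ 0
      linarith
    | succ j ih =>
      have e1 := hd_tri (G := G) (Z := Bool) x (R (j + 1) x) (R (j + 2) x)
      have e2 := h5 (j + 1) x
      have e3 := hdouble j
      rw [hd_comm] at e2
      linarith
  have hmono : ∀ j k, j ≤ k → Λ * eta e q j ≤ Λ * eta e q k := by
    intro j k hjk
    exact mul_le_mul_of_nonneg_left (eta_mono he (by linarith) j k hjk) hΛ.le
  refine ⟨{ η := eta e q, δ := fun k => Λ * eta e q k, N := N, R := R,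
            η_nonneg := eta_nonneg he hq,
            η_mono := eta_mono he (by linarith),
            δ_nonneg := hδ,
            N_anti := h1, R_zero := h3, R_mem := h4, R_step := h5,
            R_close := ?_, sep := h2 }, rfl, rfl⟩
  intro k j x hj
  rcases j with _ | j
  · rw [h3, hd_self]
    have := hδ k
    linarith
  · have := hmono j k (by omega)
    have := hclose1 j x
    linarith

/-- The recursive bounds. -/
def betaN (κ lam Λ q : ℝ) (m n : ℕ) : ℕ → ℝ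
  | 0 => √(2 ^ m)
  | k + 1 => √(2 * n) * (√(1 + κ) * (betaN κ lam Λ q m n k
        + 2 * √(lam ^ k * (Λ * eta (2 ^ m) q k))))
      + 2 * (√(1 + κ) * √(lam ^ k * eta (2 ^ m) q (k + 1)))

lemma betaN_nonneg (κ lam Λ q : ℝ) (m n k : ℕ) : 0 ≤ betaN κ lam Λ q m n k := by
  induction k with
  | zero => exact Real.sqrt_nonneg _
  | succ k ih =>
    unfold betaN
    positivity

theorem StN_all {G₀ : Type u} [Fintype G₀] (S : SysN G₀) (E : Type v) [NormedAddCommGroup E]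
    [InnerProductSpace ℝ E] {κ ξ Λ : ℝ} {q m : ℕ} (hκ : 0 ≤ κ) (hξ : 0 ≤ ξ) (hΛ : 1 ≤ Λ)
    (hq : 16 * Λ ≤ q) (hη : S.η = eta (2 ^ m) q)
    (hδ : S.δ = fun k => Λ * eta (2 ^ m) q k) (k : ℕ) (hk : k ≤ m) :
    StN S κ ξ E k (Gt.{u} (2 * q) k) (2 ^ (m - k)) (betaN κ (lamb κ ξ) Λ q m (2 * q) k) := by
  have hq0 : (0 : ℝ) < q := by linarith
  have hqn : 0 < q := by exact_mod_cast hq0
  have : NeZero (2 * q) := ⟨by omega⟩
  induction k with
  | zero =>
    exact StN_zero E (Gt.{u} (2 * q) 0) rfl (c := 2 ^ (m - 0)) (by positivity)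
  | succ k ih =>
    have ih' := ih (by omega)
    have hc : (2 : ℝ) ^ (m - k) = 2 * 2 ^ (m - (k + 1)) := by
      have : m - k = (m - (k + 1)) + 1 := by omega
      rw [this, pow_succ]; ring
    rw [hc] at ih'
    have hcond : (2 : ℝ) ^ (m - (k + 1)) * Fintype.card (Gt.{u} (2 * q) k) + 4 * S.δ k
        ≤ S.η (k + 1) := by
      rw [card_Gt, hη, hδ]
      push_cast
      have h1 : (2 : ℝ) ^ (m - (k + 1)) * (2 * q) ^ k = eta (2 ^ m) q (k + 1) / 2 := by
        have : (2 : ℝ) ^ m = 2 ^ (m - (k + 1)) * 2 ^ k * 2 := by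
          rw [← pow_add, ← pow_succ]
          congr 1
          omega
        simp only [eta]
        rw [this, mul_pow]
        ring
      rw [h1]
      have h2 := mul_eta_le (e := 2 ^ m) (q := (q : ℝ)) (by positivity) hq0 k
      have h3 := eta_nonneg (e := 2 ^ m) (q := (q : ℝ)) (by positivity) hq0 k
      nlinarith
    have h := stepN (S := S) (κ := κ) (ξ := ξ) (E := E) (k := k) (n := 2 * q)
      (G := Gt.{u} (2 * q) k)
      (c := 2 ^ (m - (k + 1))) (β := betaN κ (lamb κ ξ) Λ q m (2 * q) k) hκ hξ (by positivity)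
      (betaN_nonneg _ _ _ _ _ _ _) hcond ih'
    rw [hη, hδ] at h
    exact h

lemma betaN_le {κ lam Λ L : ℝ} {q m : ℕ} (hκ : 0 ≤ κ) (hlam : 1 ≤ lam) (hΛ : 1 ≤ Λ)
    (hL : 1 ≤ L) (hq : 16 * Λ ≤ q)
    (hq2 : (√(1 + κ) * (4 * √Λ + 2)) * L ^ m ≤ √q * (√lam / L - 2 * √(1 + κ)))
    (k : ℕ) (hk : k ≤ m) :
    betaN κ lam Λ q m (2 * q) k * L ^ k ≤ √(lam ^ k * eta (2 ^ m) q (k + 1)) := by
  have hq0 : (0 : ℝ) < q := by linarith
  have he : (0 : ℝ) < 2 ^ m := by positivity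
  have hL0 : 0 < L := by linarith
  have hlam0 : 0 < lam := by linarith
  have hΛ0 : 0 < Λ := by linarith
  induction k with
  | zero =>
    simp only [pow_zero, mul_one, one_mul, betaN, eta]
    exact le_rfl
  | succ k ih =>
    have ih := ih (by omega)
    set φ := √(lam ^ k * eta (2 ^ m) q (k + 1)) with hφ
    have hφ0 : 0 ≤ φ := Real.sqrt_nonneg _
    have hη := eta_succ_pos (e := 2 ^ m) (q := (q : ℝ)) he hq0 k
    have hη0 := eta_nonneg (e := 2 ^ m) (q := (q : ℝ)) he hq0 k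
    have hm := mul_eta_le (e := 2 ^ m) (q := (q : ℝ)) he hq0 k
    have hF1 : √(lam ^ k * (Λ * eta (2 ^ m) q k)) ≤ √(Λ / q) * φ := by
      rw [hφ, ← Real.sqrt_mul (by positivity)]
      refine Real.sqrt_le_sqrt ?_
      have h2 : eta (2 ^ m) q k ≤ eta (2 ^ m) q (k + 1) / q := by
        rw [le_div_iff₀ hq0]; linarith
      calc lam ^ k * (Λ * eta (2 ^ m) q k) = (Λ * lam ^ k) * eta (2 ^ m) q k := by ring
        _ ≤ (Λ * lam ^ k) * (eta (2 ^ m) q (k + 1) / q) :=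
            mul_le_mul_of_nonneg_left h2 (by positivity)
        _ = Λ / q * (lam ^ k * eta (2 ^ m) q (k + 1)) := by ring
    have hφ' : √(lam ^ (k + 1) * eta (2 ^ m) q (k + 1 + 1)) = √lam * √q * φ := by
      rw [hφ, ← Real.sqrt_mul hlam0.le, ← Real.sqrt_mul (by positivity), eta_succ_succ]
      congr 1
      ring
    rw [hφ']
    have h2q : √(2 * ((2 * q : ℕ) : ℝ)) = 2 * √q := by
      push_cast
      have : (2 : ℝ) * (2 * q) = 2 ^ 2 * q := by ring
      rw [this, Real.sqrt_mul (by positivity), Real.sqrt_sq (by norm_num)]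
    have hqT : √q * √(Λ / q) = √Λ := by
      rw [← Real.sqrt_mul hq0.le]
      congr 1
      field_simp
    have hLk : L ^ k ≤ L ^ m := pow_le_pow_right₀ hL (by omega)
    have hsq : 0 ≤ √Λ := Real.sqrt_nonneg _
    have hsqq : 0 ≤ √(q : ℝ) := Real.sqrt_nonneg _
    set s := √(1 + κ) with hs
    have hs0 : 0 ≤ s := Real.sqrt_nonneg _
    have hβ : betaN κ lam Λ q m (2 * q) (k + 1)
        ≤ 2 * √q * (s * (betaN κ lam Λ q m (2 * q) k + 2 * (√(Λ / q) * φ))) + 2 * (s * φ) := by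
      simp only [betaN]
      rw [h2q]
      refine add_le_add ?_ le_rfl
      refine mul_le_mul_of_nonneg_left ?_ (by positivity)
      refine mul_le_mul_of_nonneg_left ?_ hs0
      linarith
    calc betaN κ lam Λ q m (2 * q) (k + 1) * L ^ (k + 1)
        ≤ (2 * √q * (s * (betaN κ lam Λ q m (2 * q) k + 2 * (√(Λ / q) * φ))) + 2 * (s * φ))
            * L ^ (k + 1) :=
          mul_le_mul_of_nonneg_right hβ (by positivity)
      _ = 2 * √q * s * L * (betaN κ lam Λ q m (2 * q) k * L ^ k)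
          + (L * φ) * ((s * (4 * (√q * √(Λ / q)) + 2)) * L ^ k) := by ring
      _ = 2 * √q * s * L * (betaN κ lam Λ q m (2 * q) k * L ^ k)
          + (L * φ) * ((s * (4 * √Λ + 2)) * L ^ k) := by rw [hqT]
      _ ≤ 2 * √q * s * L * φ + (L * φ) * (√q * (√lam / L - 2 * s)) := by
          refine add_le_add (mul_le_mul_of_nonneg_left ih (by positivity))
            (mul_le_mul_of_nonneg_left ?_ (by positivity))
          refine le_trans ?_ hq2
          exact mul_le_mul_of_nonneg_left hLk (by positivity)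
      _ = √lam * √q * φ := by
          field_simp
          ring

/-- The lower bound for one system. -/
theorem lower_boundN {κ ξ Λ L ω : ℝ} {q m : ℕ} (hκ : 0 ≤ κ) (hξ : 0 ≤ ξ) (hΛ : 1 ≤ Λ)
    (hL : 1 ≤ L) (hq : 16 * Λ ≤ q)
    (hq2 : (√(1 + κ) * (4 * √Λ + 2)) * L ^ m ≤ √q * (√(lamb κ ξ) / L - 2 * √(1 + κ)))
    (hω : 0 ≤ ω)
    (E : Type v) [NormedAddCommGroup E] [InnerProductSpace ℝ E]
    (G : Type u) [Fintype G] [DecidableEq G] (hcard : Fintype.card G = (2 * q) ^ m)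
    (S : SysN G) (hδ : S.δ = fun k => Λ * eta (2 ^ m) q k)
    (hSt : StN S κ ξ E m G 1 (betaN κ (lamb κ ξ) Λ q m (2 * q) m))
    [MetricSpace (Tr (Wd G) m)]
    (hD : ∀ (σ : ℕ → Bool) (a b : ℕ → Wd G), Adm S m Set.univ a → Adm S m Set.univ b →
      dist (mk σ a m) (mk σ b m) ^ 2 ≤ Qn κ ξ σ m a b ∧
      ω ^ 2 * Qn κ ξ σ m a b ≤ dist (mk σ a m) (mk σ b m) ^ 2)
    (f : Tr (Wd G) m → E) (K : ℝ) (hK : 0 ≤ K)
    (hup : ∀ (σ : ℕ → Bool) (a b : ℕ → Wd G), Adm S m Set.univ a → Adm S m Set.univ b →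
      ‖f (mk σ a m) - f (mk σ b m)‖ ≤ dist (mk σ a m) (mk σ b m))
    (hlo : ∀ (σ : ℕ → Bool) (a b : ℕ → Wd G), Adm S m Set.univ a → Adm S m Set.univ b →
      dist (mk σ a m) (mk σ b m) ≤ K * ‖f (mk σ a m) - f (mk σ b m)‖) :
    ω * L ^ m / 2 ≤ K := by
  have hq0 : (0 : ℝ) < q := by linarith
  have he : (0 : ℝ) < 2 ^ m := by positivity
  have hl := lamb_ge_one hκ hξ
  set lam := lamb κ ξ with hlam
  set β := betaN κ lam Λ q m (2 * q) m with hβ
  have hβ0 : 0 ≤ β := betaN_nonneg _ _ _ _ _ _ _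
  have hLip : LipM S κ ξ m Set.univ 1 f := by
    intro σ a b ha hb
    rw [one_pow, one_mul]
    exact (pow_le_pow_left₀ (norm_nonneg _) (hup σ a b ha hb) 2).trans (hD σ a b ha hb).1
  have h1 := hSt Bool (fun z => z) (fun x y => by rw [one_mul]) Set.univ
    (fun _ _ _ => Set.mem_univ _) 1 f zero_le_one hLip
  rw [one_mul] at h1
  set φ := √(lam ^ m * eta (2 ^ m) q (m + 1)) with hφ
  have hη := eta_succ_pos (e := 2 ^ m) (q := (q : ℝ)) he hq0 m
  have hη0 := eta_nonneg (e := 2 ^ m) (q := (q : ℝ)) he hq0 m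
  have hm := mul_eta_le (e := 2 ^ m) (q := (q : ℝ)) he hq0 m
  have hlm : 0 < lam ^ m := by positivity
  have hφ0 : 0 < φ := Real.sqrt_pos.mpr (by positivity)
  have hφsq : φ ^ 2 = lam ^ m * eta (2 ^ m) q (m + 1) := Real.sq_sqrt (by positivity)
  have hβφ : β * L ^ m ≤ φ := betaN_le hκ hl hΛ hL hq hq2 m le_rfl
  have hLm : 0 < L ^ m := by positivity
  -- pointwise lower bound
  have hpt : ∀ z z' : G → Bool, ω ^ 2 * lam ^ m * (hd z z' + (-(4 * (Λ * eta (2 ^ m) q m))))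
      ≤ K ^ 2 * ‖f (cst m (S.R m z)) - f (cst m (S.R m z'))‖ ^ 2 := by
    intro z z'
    have a1 : ∀ z : G → Bool, Adm S m Set.univ fun _ => S.R m z := fun z =>
      adm_const S m _ _ (Set.mem_univ _) (S.R_mem m z)
    have e1 := (hD (fun _ => true) _ _ (a1 z) (a1 z')).2
    have e2 := hlo (fun _ => true) _ _ (a1 z) (a1 z')
    rw [Qn_const hκ] at e1
    rw [mk_const, mk_const] at e1 e2
    have c1 := S.R_close m m z (by omega)
    have c2 := S.R_close m m z' (by omega)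
    rw [hδ] at c1 c2
    have c3 := hd_tri (G := G) (Z := Bool) z (S.R m z) z'
    have c4 := hd_tri (G := G) (Z := Bool) (S.R m z) (S.R m z') z'
    rw [hd_comm (G := G) (Z := Bool) (S.R m z') z'] at c4
    have c5 : hd (G := G) (Z := Bool) z z' + (-(4 * (Λ * eta (2 ^ m) q m)))
        ≤ hd (G := G) (Z := Bool) (S.R m z) (S.R m z') := by
      simp only at c1 c2
      linarith
    have c6 := mul_le_mul_of_nonneg_left c5 (by positivity : 0 ≤ ω ^ 2 * lam ^ m)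
    have c7 := pow_le_pow_left₀ dist_nonneg e2 2
    rw [mul_pow] at c7
    have c8 : ω ^ 2 * (lam ^ m * hd (G := G) (Z := Bool) (S.R m z) (S.R m z'))
        = ω ^ 2 * lam ^ m * hd (G := G) (Z := Bool) (S.R m z) (S.R m z') := by ring
    rw [c8] at e1
    exact c6.trans (e1.trans c7)
  have h2 : ω ^ 2 * lam ^ m * (eta (2 ^ m) q (m + 1) / 4) ≤ K ^ 2 * β ^ 2 := by
    have h3 : K ^ 2 * (av fun z : G → Bool => av fun z' : G → Bool =>
        ‖f (cst m (S.R m z)) - f (cst m (S.R m z'))‖ ^ 2) ≤ K ^ 2 * β ^ 2 :=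
      mul_le_mul_of_nonneg_left h1 (sq_nonneg K)
    refine le_trans ?_ h3
    have h4 : K ^ 2 * (av fun z : G → Bool => av fun z' : G → Bool =>
        ‖f (cst m (S.R m z)) - f (cst m (S.R m z'))‖ ^ 2)
        = av fun z : G → Bool => av fun z' : G → Bool =>
          K ^ 2 * ‖f (cst m (S.R m z)) - f (cst m (S.R m z'))‖ ^ 2 := by
      simp only [av_mul]
    rw [h4]
    refine le_av fun z => ?_
    refine le_trans ?_ (av_mono (hpt z))
    rw [av_mul, av_add, av_const, av_hd, hcard]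
    refine mul_le_mul_of_nonneg_left ?_ (by positivity)
    have h5 : ((((2 * q) ^ m : ℕ)) : ℝ) = eta (2 ^ m) q (m + 1) := by
      push_cast
      simp only [eta]
      rw [mul_pow]; ring
    rw [h5]
    nlinarith
  have h5 : ω ^ 2 * φ ^ 2 / 4 ≤ K ^ 2 * β ^ 2 := by
    rw [hφsq]
    refine le_trans (le_of_eq ?_) h2
    ring
  have h6 : (β * L ^ m) ^ 2 ≤ φ ^ 2 := pow_le_pow_left₀ (by positivity) hβφ 2
  have h7 : (ω * L ^ m / 2) ^ 2 * φ ^ 2 ≤ K ^ 2 * φ ^ 2 := by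
    calc (ω * L ^ m / 2) ^ 2 * φ ^ 2 = (ω ^ 2 * φ ^ 2 / 4) * (L ^ m) ^ 2 := by ring
      _ ≤ (K ^ 2 * β ^ 2) * (L ^ m) ^ 2 := mul_le_mul_of_nonneg_right h5 (by positivity)
      _ = K ^ 2 * (β * L ^ m) ^ 2 := by ring
      _ ≤ K ^ 2 * φ ^ 2 := mul_le_mul_of_nonneg_left h6 (sq_nonneg K)
  have h8 := le_of_mul_le_mul_right h7 (by positivity)
  exact (abs_le_of_sq_le_sq' h8 hK).2

lemma exists_qN {κ lam Λ L : ℝ} (hκ : 0 ≤ κ) (hL : 1 ≤ L)
    (hLT : L * (2 * √(1 + κ)) < √lam) (m : ℕ) :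
    ∃ q : ℕ, 16 * Λ ≤ q ∧
      (√(1 + κ) * (4 * √Λ + 2)) * L ^ m ≤ √q * (√lam / L - 2 * √(1 + κ)) := by
  have hL0 : 0 < L := by linarith
  have hg : 0 < √lam / L - 2 * √(1 + κ) := by
    rw [sub_pos, lt_div_iff₀ hL0]; linarith
  set C := (√(1 + κ) * (4 * √Λ + 2)) * L ^ m / (√lam / L - 2 * √(1 + κ)) with hC
  obtain ⟨q, hq⟩ := exists_nat_ge (max (16 * Λ) (C ^ 2))
  refine ⟨q, (le_max_left _ _).trans hq, ?_⟩
  have h1 : C ≤ √q := Real.le_sqrt_of_sq_le ((le_max_right _ _).trans hq)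
  rw [hC, div_le_iff₀ hg] at h1
  exact h1

/-- The configuration. -/
theorem configN {ε L : ℝ} (hε : 0 < ε) (hε1 : ε < 1) (hL : 1 ≤ L)
    (hLT : L * (2 * √(1 + ε ^ 2)) < √(lamb (ε ^ 2) (1 + ε ^ 2))) (m : ℕ) :
    ∃ (X : Type u) (_ : MetricSpace X) (A : Fin (2 ^ m) → Set X),
      (∀ i, ∃ (ι : Type u) (_ : Fintype ι) (g : A i → EuclideanSpace ℝ ι), ∀ x y,
        dist x y ^ 2 ≤ ‖g x - g y‖ ^ 2 ∧
        rlo ε / (rhi ε * TT ε) * ‖g x - g y‖ ^ 2 ≤ dist x y ^ 2) ∧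
      ∀ (E : Type v) (_ : NormedAddCommGroup E) (_ : InnerProductSpace ℝ E) (f : X → E) (K : ℝ),
        0 ≤ K → (∀ t ∈ ⋃ i, A i, ∀ t' ∈ ⋃ i, A i, ‖f t - f t'‖ ≤ dist t t') →
        (∀ t ∈ ⋃ i, A i, ∀ t' ∈ ⋃ i, A i, dist t t' ≤ K * ‖f t - f t'‖) →
        √(rlo ε / (rhi ε * TT ε)) * L ^ m / 2 ≤ K := by
  have hκ : (0 : ℝ) ≤ ε ^ 2 := sq_nonneg _
  have hκ0 : (0 : ℝ) < ε ^ 2 := by positivity
  have hT1 := one_le_TT (ε := ε)
  obtain ⟨Λ, hΛ⟩ : ∃ Λ : ℝ, max 1 (max (8 / ε ^ 4)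
      (2 * 64 ^ m * TT ε ^ m / (ε ^ 2) ^ (2 * m))) ≤ Λ := ⟨_, le_rfl⟩
  have hΛ1 : 1 ≤ Λ := (le_max_left _ _).trans hΛ
  have hΛ2 : 8 ≤ ε ^ 4 * Λ := by
    have h := ((le_max_left _ _).trans (le_max_right _ _)).trans hΛ
    rw [div_le_iff₀ (by positivity)] at h
    linarith
  have hΛ3 : 2 * 64 ^ m * TT ε ^ m ≤ (ε ^ 2) ^ (2 * m) * Λ := by
    have h := ((le_max_right _ _).trans (le_max_right _ _)).trans hΛ
    rw [div_le_iff₀ (by positivity)] at h
    linarith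
  obtain ⟨q, hq, hq2⟩ := exists_qN (κ := ε ^ 2) (lam := lamb (ε ^ 2) (1 + ε ^ 2)) (Λ := Λ) hκ hL
    hLT m
  have hq1 : (2 : ℝ) ≤ q := by linarith
  obtain ⟨S, hSη, hSδ⟩ := exists_SysN (Λ := Λ) (e := 2 ^ m) (q := q) (by linarith)
    (by positivity) hq1 (Gt.{u} (2 * q) m)
  obtain ⟨mt, hD⟩ := exists_metric (m := m) S hε hε1 hΛ2 hΛ3 (fun k => by rw [hSη, hSδ])
  have hcard : Fintype.card (Fin m → Bool) = Fintype.card (Fin (2 ^ m)) := by simp
  let ε' : (Fin m → Bool) ≃ Fin (2 ^ m) := Fintype.equivOfCardEq hcard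
  let sg : Fin (2 ^ m) → ℕ → Bool := fun i j =>
    if h : j < m then ε'.symm i ⟨j, h⟩ else true
  have hlo := rlo_pos hε hε1
  have hhi := one_le_rhi hε hε1
  have hω0 : 0 ≤ rlo ε / (rhi ε * TT ε) := by positivity
  refine ⟨Tr (Wd (Gt.{u} (2 * q) m)) m, mt,
    fun i => {t | ∃ a, Adm S m Set.univ a ∧ t = mk (sg i) a m}, ?_, ?_⟩
  · intro i
    choose a ha using fun t : {t | ∃ a, Adm S m Set.univ a ∧ t = mk (sg i) a m} => t.2
    refine ⟨Ix (Gt.{u} (2 * q) m) m, inferInstance,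
      fun t => Pe (ε ^ 2) (1 + ε ^ 2) (sg i) m (a t), fun x y => ?_⟩
    have h := hD (sg i) (a x) (a y) (ha x).1 (ha y).1
    rw [← (ha x).2, ← (ha y).2] at h
    exact h
  · intro E _ _ f K hK hup hlo'
    have hsub : ∀ (σ : ℕ → Bool) (a : ℕ → Wd (Gt.{u} (2 * q) m)), Adm S m Set.univ a →
        mk σ a m ∈ ⋃ i, {t | ∃ a, Adm S m Set.univ a ∧ t = mk (sg i) a m} := by
      intro σ a ha
      refine Set.mem_iUnion.mpr ⟨ε' fun j => σ j, a, ha, ?_⟩
      refine mk_congr m (fun j hj => ?_) (fun _ _ => rfl)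
      simp only [sg, hj, dif_pos, Equiv.symm_apply_apply]
    have hSt := StN_all S E (κ := ε ^ 2) (ξ := 1 + ε ^ 2) (Λ := Λ) (q := q) (m := m) hκ
      (by positivity) hΛ1 hq hSη hSδ m le_rfl
    rw [Nat.sub_self, pow_zero] at hSt
    refine lower_boundN (κ := ε ^ 2) (ξ := 1 + ε ^ 2) hκ (by positivity) hΛ1 hL hq hq2
      (Real.sqrt_nonneg _) E (Gt.{u} (2 * q) m) (card_Gt _ _) S hSδ hSt ?_ f K hK
      (fun σ a b ha hb => hup _ (hsub σ a ha) _ (hsub σ b hb))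
      (fun σ a b ha hb => hlo' _ (hsub σ a ha) _ (hsub σ b hb))
    intro σ a b ha hb
    rw [Real.sq_sqrt hω0]
    exact hD σ a b ha hb

end

end H799N
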