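import Pool.Agent.Helper799.UnionN.Calib

/-!
The metric on the union of the pieces.
-/

namespace H799N

open scoped BigOperators
open H799L

noncomputable section

universe u v

section sup

variable {E : Type v} [NormedAddCommGroup E] [InnerProductSpace ℝ E]

/-- The support function of a set. -/
def supp (Z : Set E) (v : E) : ℝ := sSup ((fun z => inner ℝ v z) '' Z)

variable {Z : Set E} {M : ℝ}

lemma supp_bdd (hM : ∀ z ∈ Z, ‖z‖ ≤ M) (v : E) : BddAbove ((fun z => inner ℝ v z) '' Z) := by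
  refine ⟨‖v‖ * M, ?_⟩
  rintro _ ⟨z, hz, rfl⟩
  refine (real_inner_le_norm v z).trans ?_
  exact mul_le_mul_of_nonneg_left (hM z hz) (norm_nonneg _)

lemma le_supp (hM : ∀ z ∈ Z, ‖z‖ ≤ M) (v : E) {z : E} (hz : z ∈ Z) : inner ℝ v z ≤ supp Z v :=
  le_csSup (supp_bdd hM v) ⟨z, hz, rfl⟩

lemma supp_le (h0 : (0 : E) ∈ Z) (v : E) {B : ℝ} (h : ∀ z ∈ Z, inner ℝ v z ≤ B) :
    supp Z v ≤ B := by
  refine csSup_le ⟨_, ⟨0, h0, rfl⟩⟩ ?_
  rintro _ ⟨z, hz, rfl⟩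
  exact h z hz

lemma supp_nonneg (hM : ∀ z ∈ Z, ‖z‖ ≤ M) (h0 : (0 : E) ∈ Z) (v : E) : 0 ≤ supp Z v := by
  have := le_supp hM v h0
  rwa [inner_zero_right] at this

lemma supp_zero (hM : ∀ z ∈ Z, ‖z‖ ≤ M) (h0 : (0 : E) ∈ Z) : supp Z (0 : E) = 0 := by
  refine le_antisymm (supp_le h0 _ fun z _ => ?_) (supp_nonneg hM h0 _)
  rw [inner_zero_left]

lemma supp_add (hM : ∀ z ∈ Z, ‖z‖ ≤ M) (h0 : (0 : E) ∈ Z) (v w : E) :
    supp Z (v + w) ≤ supp Z v + supp Z w := by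
  refine supp_le h0 _ fun z hz => ?_
  rw [inner_add_left]
  exact add_le_add (le_supp hM v hz) (le_supp hM w hz)

lemma supp_neg (hM : ∀ z ∈ Z, ‖z‖ ≤ M) (h0 : (0 : E) ∈ Z) (hneg : ∀ z ∈ Z, -z ∈ Z) (v : E) :
    supp Z (-v) = supp Z v := by
  have key : ∀ v : E, supp Z (-v) ≤ supp Z v := fun v => by
    refine supp_le h0 _ fun z hz => ?_
    have := le_supp hM v (hneg z hz)
    rwa [inner_neg_right, ← inner_neg_left] at this
  refine le_antisymm (key v) ?_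
  have := key (-v)
  rwa [neg_neg] at this

/-- A metric from an injective map and a positive support function. -/
@[reducible] def suppMetric {X : Type u} (F : X → E) (hF : Function.Injective F)
    (hM : ∀ z ∈ Z, ‖z‖ ≤ M) (h0 : (0 : E) ∈ Z) (hneg : ∀ z ∈ Z, -z ∈ Z)
    (hpos : ∀ v, v ≠ 0 → 0 < supp Z v) : MetricSpace X where
  dist x y := supp Z (F x - F y)
  dist_self x := by rw [sub_self]; exact supp_zero hM h0
  dist_comm x y := by rw [← neg_sub, supp_neg hM h0 hneg]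
  dist_triangle x y z := by
    have : F x - F z = (F x - F y) + (F y - F z) := by abel
    rw [this]
    exact supp_add hM h0 _ _
  eq_of_dist_eq_zero := by
    intro x y h
    by_contra hne
    have h1 : F x - F y ≠ 0 := fun h' => hne (hF (sub_eq_zero.mp h'))
    exact (hpos _ h1).ne' h

end sup

variable {G : Type u} [Fintype G]

lemma ph_inj : Function.Injective (ph : Wd G → EE G 0) := by
  intro x y h
  have h1 := ph_sub_sq x y
  rw [h, sub_self, norm_zero] at h1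
  refine hd_eq_zero (G := G) (Z := Bool) ?_
  rw [← h1]; norm_num

lemma ext_inj {κ : ℝ} (hκ : 0 < κ) (c₁ c₂ : ℝ) {k : ℕ} {x x' y y' : EE G k}
    (h : ext κ c₁ c₂ x y = ext κ c₁ c₂ x' y') : x = x' ∧ y = y' := by
  have h1 : ‖ext κ c₁ c₂ (x - x') (y - y')‖ ^ 2 = 0 := by
    rw [← ext_sub, h, sub_self, norm_zero]; norm_num
  rw [norm_ext_sq hκ.le] at h1
  have h2 := sq_nonneg ‖c₁ • (x - x') + c₂ • (y - y')‖
  have h3 : 0 ≤ κ * ‖x - x'‖ ^ 2 := by positivity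
  have h4 : 0 ≤ κ * ‖y - y'‖ ^ 2 := by positivity
  have h5 : κ * ‖x - x'‖ ^ 2 = 0 := by linarith
  have h6 : κ * ‖y - y'‖ ^ 2 = 0 := by linarith
  have h7 : ‖x - x'‖ ^ 2 = 0 := (mul_eq_zero.mp h5).resolve_left hκ.ne'
  have h8 : ‖y - y'‖ ^ 2 = 0 := (mul_eq_zero.mp h6).resolve_left hκ.ne'
  exact ⟨sub_eq_zero.mp (norm_eq_zero.mp (pow_eq_zero_iff two_ne_zero |>.mp h7)),
    sub_eq_zero.mp (norm_eq_zero.mp (pow_eq_zero_iff two_ne_zero |>.mp h8))⟩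

lemma Psi_inj {κ : ℝ} (hκ : 0 < κ) : ∀ k, Function.Injective (Psi (G := G) κ k)
  | 0 => ph_inj
  | k + 1 => by
    intro t t' h
    obtain ⟨h1, h2⟩ := ext_inj hκ 1 1 (show ext κ 1 1 (Psi κ k t.1) (Psi κ k t.2)
      = ext κ 1 1 (Psi κ k t'.1) (Psi κ k t'.2) from h)
    exact Prod.ext (Psi_inj hκ k h1) (Psi_inj hκ k h2)

/-- The metric: every piece is `√Qn` up to a factor close to `1`. -/
theorem exists_metric {ε Λ : ℝ} {m : ℕ} (S : SysN G) (hε : 0 < ε) (hε1 : ε < 1)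
    (hΛ : 8 ≤ ε ^ 4 * Λ) (hΛ2 : 2 * 64 ^ m * TT ε ^ m ≤ (ε ^ 2) ^ (2 * m) * Λ)
    (hδ : ∀ k, Λ * S.η k ≤ S.δ k) :
    ∃ _ : MetricSpace (Tr (Wd G) m), ∀ (σ : ℕ → Bool) (a b : ℕ → Wd G),
      Adm S m Set.univ a → Adm S m Set.univ b →
      dist (mk σ a m) (mk σ b m) ^ 2 ≤ Qn (ε ^ 2) (1 + ε ^ 2) σ m a b ∧
      rlo ε / (rhi ε * TT ε) * Qn (ε ^ 2) (1 + ε ^ 2) σ m a b
        ≤ dist (mk σ a m) (mk σ b m) ^ 2 := by
  have hκ0 : (0 : ℝ) < ε ^ 2 := by positivity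
  have hT1 := one_le_TT (ε := ε)
  have hT0 : 0 < TT ε := by linarith
  have hlo := rlo_pos hε hε1
  have hlo1 := rlo_le_one hε hε1
  have hhi := one_le_rhi hε hε1
  set Z : Set (EE G m) := {z | ‖z‖ ≤ √(TT ε ^ m) ∧ ∀ (σ : ℕ → Bool) (a b : ℕ → Wd G),
    Adm S m Set.univ a → Adm S m Set.univ b →
      (inner ℝ (Pe (ε ^ 2) 1 σ m a - Pe (ε ^ 2) 1 σ m b) z) ^ 2
        ≤ Qn (ε ^ 2) (1 + ε ^ 2) σ m a b} with hZ
  have hM : ∀ z ∈ Z, ‖z‖ ≤ √(TT ε ^ m) := fun z hz => hz.1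
  have h0 : (0 : EE G m) ∈ Z := by
    refine ⟨by rw [norm_zero]; exact Real.sqrt_nonneg _, fun σ a b _ _ => ?_⟩
    rw [inner_zero_right]
    have := Qn_nonneg (ε ^ 2) (1 + ε ^ 2) σ m a b
    simpa using this
  have hneg : ∀ z ∈ Z, -z ∈ Z := by
    rintro z ⟨h1, h2⟩
    refine ⟨by rwa [norm_neg], fun σ a b ha hb => ?_⟩
    rw [inner_neg_right, neg_sq]
    exact h2 σ a b ha hb
  -- membership of multiples
  have hmem : ∀ (v : EE G m) (c : ℝ), v ≠ 0 → 0 ≤ c → c ≤ TT ε ^ m →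
      (∀ (σ : ℕ → Bool) (a b : ℕ → Wd G), Adm S m Set.univ a → Adm S m Set.univ b →
        c * (inner ℝ (Pe (ε ^ 2) 1 σ m a - Pe (ε ^ 2) 1 σ m b) v) ^ 2
          ≤ ‖v‖ ^ 2 * Qn (ε ^ 2) (1 + ε ^ 2) σ m a b) → √c * ‖v‖ ≤ supp Z v := by
    intro v c hv hc hcT h
    have hv0 : 0 < ‖v‖ := norm_pos_iff.mpr hv
    have hz : (√c / ‖v‖) • v ∈ Z := by
      refine ⟨?_, fun σ a b ha hb => ?_⟩
      · rw [norm_smul, Real.norm_of_nonneg (by positivity), div_mul_cancel₀ _ hv0.ne']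
        exact Real.sqrt_le_sqrt hcT
      · rw [inner_smul_right, mul_pow, div_pow, Real.sq_sqrt hc, div_mul_eq_mul_div,
          div_le_iff₀ (by positivity), mul_comm (Qn _ _ _ _ _ _)]
        exact h σ a b ha hb
    have h1 := le_supp hM v hz
    rw [inner_smul_right, real_inner_self_eq_norm_sq] at h1
    have h2 : √c / ‖v‖ * ‖v‖ ^ 2 = √c * ‖v‖ := by field_simp
    linarith
  have hpos : ∀ v, v ≠ 0 → 0 < supp Z v := by
    intro v hv
    have hv0 : 0 < ‖v‖ := norm_pos_iff.mpr hv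
    have h1 := hmem v (rlo ε) hv hlo.le (hlo1.trans (one_le_pow₀ hT1))
      (fun σ a b ha hb => calib0 S hε hε1 hΛ hδ σ ha hb v)
    have h2 : 0 < √(rlo ε) * ‖v‖ := mul_pos (Real.sqrt_pos.mpr hlo) hv0
    linarith
  refine ⟨suppMetric (Psi (ε ^ 2) m) (Psi_inj hκ0 m) hM h0 hneg hpos, fun σ a b ha hb => ?_⟩
  have hd : ∀ t t' : Tr (Wd G) m,
      @dist _ (suppMetric (Psi (ε ^ 2) m) (Psi_inj hκ0 m) hM h0 hneg hpos).toDist t t'
        = supp Z (Psi (ε ^ 2) m t - Psi (ε ^ 2) m t') := fun _ _ => rfl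
  rw [hd, Psi_mk, Psi_mk]
  set v := Pe (ε ^ 2) 1 σ m a - Pe (ε ^ 2) 1 σ m b with hv
  have hQ0 := Qn_nonneg (ε ^ 2) (1 + ε ^ 2) σ m a b
  constructor
  · have h1 : supp Z v ≤ √(Qn (ε ^ 2) (1 + ε ^ 2) σ m a b) := by
      refine supp_le h0 _ fun z hz => ?_
      exact Real.le_sqrt_of_sq_le (hz.2 σ a b ha hb)
    calc supp Z v ^ 2 ≤ √(Qn (ε ^ 2) (1 + ε ^ 2) σ m a b) ^ 2 :=
          pow_le_pow_left₀ (supp_nonneg hM h0 v) h1 2
      _ = _ := Real.sq_sqrt hQ0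
  · obtain ⟨k, ⟨-, hr2⟩, -, hkm, hk⟩ := exists_idx S hε hε1 hΛ hδ σ ha hb
    have hG : Qn (ε ^ 2) 1 σ m a b = ‖v‖ ^ 2 := rfl
    rw [hG] at hr2
    rcases eq_or_ne v 0 with hv0 | hv0
    · rw [hv0, norm_zero] at hr2
      have h1 : Qn (ε ^ 2) (1 + ε ^ 2) σ m a b = 0 := by
        refine le_antisymm ?_ hQ0
        simpa using hr2
      rw [h1, mul_zero]
      exact sq_nonneg _
    · have h1 := hmem v (rlo ε * TT ε ^ (k - 1)) hv0 (by positivity) (by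
          have e1 : TT ε ^ (k - 1) ≤ TT ε ^ m := pow_le_pow_right₀ hT1 (by omega)
          have e3 : 0 < TT ε ^ (k - 1) := by positivity
          nlinarith)
        (fun σ' a' b' ha' hb' => calib S hε hε1 hΛ hΛ2 hδ σ σ' hkm hk ha' hb')
      have h2 : rlo ε * TT ε ^ (k - 1) * ‖v‖ ^ 2 ≤ supp Z v ^ 2 := by
        calc rlo ε * TT ε ^ (k - 1) * ‖v‖ ^ 2 = (√(rlo ε * TT ε ^ (k - 1)) * ‖v‖) ^ 2 := by
              rw [mul_pow, Real.sq_sqrt (by positivity)]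
          _ ≤ supp Z v ^ 2 := pow_le_pow_left₀ (by positivity) h1 2
      refine le_trans ?_ h2
      have h3 : TT ε ^ k ≤ TT ε ^ (k - 1) * TT ε := by
        rcases Nat.eq_zero_or_pos k with h | h
        · subst h
          simpa using hT1
        · have : k = (k - 1) + 1 := by omega
          calc TT ε ^ k = TT ε ^ ((k - 1) + 1) := by rw [← this]
            _ = TT ε ^ (k - 1) * TT ε := pow_succ _ _
            _ ≤ _ := le_rfl
      have hrT : 0 < rhi ε * TT ε := by positivity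
      rw [div_mul_eq_mul_div, div_le_iff₀ hrT]
      have hv2 := sq_nonneg ‖v‖
      calc rlo ε * Qn (ε ^ 2) (1 + ε ^ 2) σ m a b
          ≤ rlo ε * (rhi ε * TT ε ^ k * ‖v‖ ^ 2) := mul_le_mul_of_nonneg_left hr2 hlo.le
        _ ≤ rlo ε * (rhi ε * (TT ε ^ (k - 1) * TT ε) * ‖v‖ ^ 2) := by
            refine mul_le_mul_of_nonneg_left ?_ hlo.le
            refine mul_le_mul_of_nonneg_right ?_ hv2
            exact mul_le_mul_of_nonneg_left h3 (by linarith)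
        _ = rlo ε * TT ε ^ (k - 1) * ‖v‖ ^ 2 * (rhi ε * TT ε) := by ring

end

end H799N
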