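import Pool.Agent.Helper799.UnionN.Metric

/-!
The concentration step.
-/

namespace H799N

open scoped BigOperators
open H799L

noncomputable section

universe u v w

variable {G₀ : Type u} [Fintype G₀] (S : SysN G₀) (κ ξ : ℝ)

/-- `f` is `M`-Lipschitz on every piece. -/
def LipM {E : Type v} [NormedAddCommGroup E] (k : ℕ) (B : Set (Wd G₀)) (M : ℝ)
    (f : Tr (Wd G₀) k → E) : Prop :=
  ∀ (σ : ℕ → Bool) (a b : ℕ → Wd G₀), Adm S k B a → Adm S k B b →
    ‖f (mk σ a k) - f (mk σ b k)‖ ^ 2 ≤ M ^ 2 * Qn κ ξ σ k a b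

/-- The concentration statement at level `k`. -/
def StN (E : Type v) [NormedAddCommGroup E] [InnerProductSpace ℝ E] (k : ℕ)
    (G : Type w) [Fintype G] [DecidableEq G] (c β : ℝ) : Prop :=
  ∀ (Z : Type) [Fintype Z] [Nonempty Z] (w : (G → Z) → Wd G₀),
    (∀ x y, hd (G := G₀) (Z := Bool) (w x) (w y) ≤ c * hd x y) →
    ∀ B : Set (Wd G₀), (∀ j ≤ k, ∀ z, S.R j (w z) ∈ B) →
    ∀ (M : ℝ) (f : Tr (Wd G₀) k → E), 0 ≤ M → LipM S κ ξ k B M f →
      (av fun z : G → Z => av fun z' : G → Z =>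
        ‖f (cst k (S.R k (w z))) - f (cst k (S.R k (w z')))‖ ^ 2) ≤ (M * β) ^ 2

variable {S κ ξ}

lemma StN_zero (E : Type v) [NormedAddCommGroup E] [InnerProductSpace ℝ E]
    (G : Type w) [Fintype G] [DecidableEq G] (hG : Fintype.card G = 1) {c : ℝ} (hc : 0 ≤ c) :
    StN S κ ξ E 0 G c (√c) := by
  intro Z _ _ w hw B hB M f hM hf
  have key : ∀ z z' : G → Z,
      ‖f (cst 0 (S.R 0 (w z))) - f (cst 0 (S.R 0 (w z')))‖ ^ 2 ≤ (M * √c) ^ 2 := by
    intro z z'
    have h1 := hf (fun _ => true) (fun _ => S.R 0 (w z)) (fun _ => S.R 0 (w z'))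
      (adm_const S 0 B _ (hB 0 le_rfl z) (S.R_mem 0 _))
      (adm_const S 0 B _ (hB 0 le_rfl z') (S.R_mem 0 _))
    rw [mk_const, mk_const, Qn_zero] at h1
    refine h1.trans ?_
    rw [mul_pow, Real.sq_sqrt hc]
    refine mul_le_mul_of_nonneg_left ?_ (sq_nonneg _)
    rw [S.R_zero, S.R_zero]
    refine (hw z z').trans ?_
    have h2 : hd z z' ≤ 1 := by
      classical
      unfold hd
      have : (Finset.univ.filter fun g => z g ≠ z' g).card ≤ 1 := by
        rw [← hG]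
        exact Finset.card_le_univ _
      exact_mod_cast this
    nlinarith [hd_nonneg z z']
  exact av_le fun z => av_le fun z' => key z z'

lemma adm_update {k : ℕ} {B : Set (Wd G₀)} {α : Wd G₀} (hα : α ∈ B) (hN : α ∈ S.N (k + 1))
    {b : ℕ → Wd G₀}
    (hb : Adm S k (B ∩ {b | hd (G := G₀) (Z := Bool) α b ≤ S.η (k + 1)}) b) :
    Adm S (k + 1) B (Function.update b (k + 1) α) := by
  obtain ⟨h1, h2, h3⟩ := hb
  refine ⟨fun j hj => ?_, fun j hj => ?_, fun i j hij hj => ?_⟩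
  · rcases Nat.lt_or_ge j (k + 1) with h | h
    · rw [Function.update_of_ne (by omega)]
      exact (h1 j (by omega)).1
    · have : j = k + 1 := by omega
      subst this
      rw [Function.update_self]
      exact hα
  · rcases Nat.lt_or_ge j k with h | h
    · rw [Function.update_of_ne (by omega)]
      exact h2 j (by omega)
    · have : j = k := by omega
      subst this
      rw [Function.update_self]
      exact hN
  · rcases Nat.lt_or_ge j (k + 1) with h | h
    · rw [Function.update_of_ne (by omega), Function.update_of_ne (by omega)]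
      exact h3 i j hij (by omega)
    · have : j = k + 1 := by omega
      subst this
      rw [Function.update_self, Function.update_of_ne (by omega)]
      exact (h1 i (by omega)).2

lemma Qn_update (hκ : 0 ≤ κ) (σ : ℕ → Bool) (s : Bool) (k : ℕ) (b b' : ℕ → Wd G₀) (α : Wd G₀) :
    Qn κ ξ (Function.update σ k s) (k + 1) (Function.update b (k + 1) α)
      (Function.update b' (k + 1) α) = (1 + κ) * Qn κ ξ σ k b b' := by
  rw [Qn_eq_top hκ _ _ _ _ _ (by rw [Function.update_self, Function.update_self])]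
  unfold Qn
  have e : ∀ b : ℕ → Wd G₀, Pe κ ξ (Function.update σ k s) k (Function.update b (k + 1) α)
      = Pe κ ξ σ k b := fun b =>
    Pe_congr k (fun j hj => Function.update_of_ne (by omega) _ _)
      (fun j hj => Function.update_of_ne (by omega) _ _)
  rw [e, e]

lemma mk_update_true {W : Type u} (σ : ℕ → Bool) (k : ℕ) (b : ℕ → W) (α : W) :
    mk (Function.update σ k true) (Function.update b (k + 1) α) (k + 1)
      = pr (cst k α) (mk σ b k) := by
  have e := mk_congr (σ := Function.update σ k true) (σ' := σ)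
    (a := Function.update b (k + 1) α) (a' := b) k
    (fun j hj => Function.update_of_ne (by omega) _ _)
    (fun j hj => Function.update_of_ne (by omega) _ _)
  simp only [mk, Function.update_self, if_true, e]

lemma mk_update_false {W : Type u} (σ : ℕ → Bool) (k : ℕ) (b : ℕ → W) (α : W) :
    mk (Function.update σ k false) (Function.update b (k + 1) α) (k + 1)
      = pr (mk σ b k) (cst k α) := by
  have e := mk_congr (σ := Function.update σ k false) (σ' := σ)
    (a := Function.update b (k + 1) α) (a' := b) k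
    (fun j hj => Function.update_of_ne (by omega) _ _)
    (fun j hj => Function.update_of_ne (by omega) _ _)
  simp only [mk, Function.update_self, e]
  rw [if_neg (by simp)]

section

variable {E : Type v} [NormedAddCommGroup E] {k : ℕ} {B : Set (Wd G₀)} {M : ℝ}
  {f : Tr (Wd G₀) (k + 1) → E}

lemma lip_left (hκ : 0 ≤ κ) (hf : LipM S κ ξ (k + 1) B M f) {α : Wd G₀} (hα : α ∈ B)
    (hN : α ∈ S.N (k + 1)) :
    LipM S κ ξ k (B ∩ {b | hd (G := G₀) (Z := Bool) α b ≤ S.η (k + 1)}) (M * √(1 + κ))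
      fun t => f (pr (cst k α) t) := by
  intro σ b b' hb hb'
  have h := hf (Function.update σ k true) _ _ (adm_update hα hN hb) (adm_update hα hN hb')
  rw [mk_update_true, mk_update_true, Qn_update hκ] at h
  rw [mul_pow, Real.sq_sqrt (by linarith), mul_assoc]
  exact h

lemma lip_right (hκ : 0 ≤ κ) (hf : LipM S κ ξ (k + 1) B M f) {α : Wd G₀} (hα : α ∈ B)
    (hN : α ∈ S.N (k + 1)) :
    LipM S κ ξ k (B ∩ {b | hd (G := G₀) (Z := Bool) α b ≤ S.η (k + 1)}) (M * √(1 + κ))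
      fun t => f (pr t (cst k α)) := by
  intro σ b b' hb hb'
  have h := hf (Function.update σ k false) _ _ (adm_update hα hN hb) (adm_update hα hN hb')
  rw [mk_update_false, mk_update_false, Qn_update hκ] at h
  rw [mul_pow, Real.sq_sqrt (by linarith), mul_assoc]
  exact h

end

lemma lip_const {E : Type v} [NormedAddCommGroup E] {k : ℕ} {B : Set (Wd G₀)} {M : ℝ}
    (hκ : 0 ≤ κ) (hξ : 0 ≤ ξ) (hM : 0 ≤ M)
    {f : Tr (Wd G₀) k → E} (hf : LipM S κ ξ k B M f) {x y : Wd G₀} (hx : x ∈ B) (hy : y ∈ B)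
    (hxN : x ∈ S.N k) (hyN : y ∈ S.N k) {H : ℝ} (h : hd (G := G₀) (Z := Bool) x y ≤ H) :
    ‖f (cst k x) - f (cst k y)‖ ≤ M * √(lamb κ ξ ^ k * H) := by
  have h1 := hf (fun _ => true) (fun _ => x) (fun _ => y) (adm_const S k B x hx hxN)
    (adm_const S k B y hy hyN)
  rw [mk_const, mk_const, Qn_const hκ] at h1
  have hl := lamb_ge_one hκ hξ
  have hH : 0 ≤ H := (hd_nonneg _ _).trans h
  refine (abs_le_of_sq_le_sq' ?_ (by positivity)).2
  rw [mul_pow, Real.sq_sqrt (by positivity)]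
  refine h1.trans ?_
  refine mul_le_mul_of_nonneg_left ?_ (sq_nonneg _)
  exact mul_le_mul_of_nonneg_left h (by positivity)

theorem stepN {E : Type v} [NormedAddCommGroup E] [InnerProductSpace ℝ E] {k n : ℕ} [NeZero n]
    {G : Type w} [Fintype G] [DecidableEq G] {c β : ℝ} (hκ : 0 ≤ κ) (hξ : 0 ≤ ξ)
    (hc : 0 ≤ c) (hβ : 0 ≤ β)
    (hcond : c * Fintype.card G + 4 * S.δ k ≤ S.η (k + 1))
    (hS : StN S κ ξ E k G (2 * c) β) :
    StN S κ ξ E (k + 1) (G × Fin n) c
      (√(2 * n) * (√(1 + κ) * (β + 2 * √(lamb κ ξ ^ k * S.δ k)))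
        + 2 * (√(1 + κ) * √(lamb κ ξ ^ k * S.η (k + 1)))) := by
  intro Z _ _ w hw B hB M f hM hf
  have hFδ := Real.sqrt_nonneg (lamb κ ξ ^ k * S.δ k)
  have hFη := Real.sqrt_nonneg (lamb κ ξ ^ k * S.η (k + 1))
  have hsk := Real.sqrt_nonneg (1 + κ)
  set M' : ℝ := M * √(1 + κ) with hM'
  have hM'0 : 0 ≤ M' := by positivity
  set α : ℝ := M' * (β + 2 * √(lamb κ ξ ^ k * S.δ k)) with hα
  have hα0 : 0 ≤ α := by positivity
  set a : (G × Fin n → Z) → Wd G₀ := fun x => S.R (k + 1) (w x) with ha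
  have haN : ∀ x, a x ∈ S.N (k + 1) := fun x => S.R_mem _ _
  have haB : ∀ x, a x ∈ B := fun x => hB (k + 1) le_rfl x
  have close : ∀ (x : G × Fin n → Z) (s : G → Fin n) (ζ : G → Z) (i j : ℕ),
      i ≤ k + 1 → j ≤ k + 1 →
      hd (G := G₀) (Z := Bool) (S.R i (w x)) (S.R j (w (upd s ζ x))) ≤ S.η (k + 1) := by
    intro x s ζ i j hi hj
    have h1 := hd_tri (G := G₀) (Z := Bool) (S.R i (w x)) (w x) (S.R j (w (upd s ζ x)))
    have h2 := hd_tri (G := G₀) (Z := Bool) (w x) (w (upd s ζ x)) (S.R j (w (upd s ζ x)))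
    have h3 := S.R_close k i (w x) hi
    have h4 := S.R_close k j (w (upd s ζ x)) hj
    rw [hd_comm] at h3
    have h5 := hw x (upd s ζ x)
    have h6 := mul_le_mul_of_nonneg_left (hd_upd_le s ζ x) hc
    linarith
  -- the concentration bound for resampling one side
  have conc : ∀ (p : G × Fin n → Z) (f' : Tr (Wd G₀) k → E),
      LipM S κ ξ k (B ∩ {b | hd (G := G₀) (Z := Bool) (a p) b ≤ S.η (k + 1)}) M' f' →
      (av fun q : (G → Fin n) × (G → Z) => av fun q' : (G → Fin n) × (G → Z) =>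
        ‖f' (cst k (a (upd q.1 q.2 p))) - f' (cst k (a (upd q'.1 q'.2 p)))‖ ^ 2) ≤ α ^ 2 := by
    intro p f' hf'
    set w' : (G → Fin n × Z) → Wd G₀ :=
      fun v => w (upd (fun g => (v g).1) (fun g => (v g).2) p) with hw'
    have h1 : ∀ v v', hd (G := G₀) (Z := Bool) (w' v) (w' v') ≤ 2 * c * hd v v' := by
      intro v v'
      refine (hw _ _).trans ?_
      have := hd_upd_upd (fun g => (v g).1) (fun g => (v' g).1) (fun g => (v g).2)
        (fun g => (v' g).2) p
      simp only [Prod.mk.eta] at this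
      have := mul_le_mul_of_nonneg_left this hc
      linarith
    have h2 : ∀ j ≤ k, ∀ v,
        S.R j (w' v) ∈ B ∩ {b | hd (G := G₀) (Z := Bool) (a p) b ≤ S.η (k + 1)} :=
      fun j hj v => ⟨hB j (by omega) _, close p _ _ (k + 1) j le_rfl (by omega)⟩
    have h3 := hS (Fin n × Z) w' h1 _ h2 M' f' hM'0 hf'
    have hmem : ∀ v : G → Fin n × Z,
        S.R (k + 1) (w' v) ∈ B ∩ {b | hd (G := G₀) (Z := Bool) (a p) b ≤ S.η (k + 1)} :=
      fun v => ⟨hB (k + 1) le_rfl _, close p _ _ (k + 1) (k + 1) le_rfl le_rfl⟩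
    have h4 : ∀ v : G → Fin n × Z,
        ‖f' (cst k (S.R (k + 1) (w' v))) - f' (cst k (S.R k (w' v)))‖
          ≤ M' * √(lamb κ ξ ^ k * S.δ k) := by
      intro v
      exact lip_const hκ hξ hM'0 hf' (hmem v) (h2 k le_rfl v) (S.N_anti k (S.R_mem _ _))
        (S.R_mem _ _) (S.R_step k _)
    have h5 : (av fun v : G → Fin n × Z => av fun v' : G → Fin n × Z =>
        ‖f' (cst k (S.R (k + 1) (w' v))) - f' (cst k (S.R (k + 1) (w' v')))‖ ^ 2) ≤ α ^ 2 := by
      rw [← av_prod (fun r : (G → Fin n × Z) × (G → Fin n × Z) =>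
        ‖f' (cst k (S.R (k + 1) (w' r.1))) - f' (cst k (S.R (k + 1) (w' r.2)))‖ ^ 2)]
      rw [← av_prod (fun r : (G → Fin n × Z) × (G → Fin n × Z) =>
        ‖f' (cst k (S.R k (w' r.1))) - f' (cst k (S.R k (w' r.2)))‖ ^ 2)] at h3
      have hαe : α = M' * β + 2 * (M' * √(lamb κ ξ ^ k * S.δ k)) := by rw [hα]; ring
      rw [hαe]
      refine av_sq_le (by positivity) (by positivity) (fun r => norm_nonneg _) (fun r => ?_) h3
      have e1 := h4 r.1
      have e2 := h4 r.2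
      have e3 : f' (cst k (S.R (k + 1) (w' r.1))) - f' (cst k (S.R (k + 1) (w' r.2)))
          = (f' (cst k (S.R (k + 1) (w' r.1))) - f' (cst k (S.R k (w' r.1))))
            + (f' (cst k (S.R k (w' r.1))) - f' (cst k (S.R k (w' r.2))))
            + (f' (cst k (S.R k (w' r.2))) - f' (cst k (S.R (k + 1) (w' r.2)))) := by abel
      rw [e3]
      refine (norm_add₃_le).trans ?_
      rw [norm_sub_rev (f' (cst k (S.R k (w' r.2))))]
      linarith
    let e : (G → Fin n × Z) ≃ (G → Fin n) × (G → Z) :=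
      { toFun := fun v => (fun g => (v g).1, fun g => (v g).2)
        invFun := fun q g => (q.1 g, q.2 g)
        left_inv := fun v => rfl
        right_inv := fun q => rfl }
    rw [← av_equiv e]
    refine le_of_eq_of_le ?_ h5
    refine congrArg av (funext fun v => ?_)
    rw [← av_equiv e]
    rfl
  -- conditional means
  set ψ₁ : (G × Fin n → Z) → E := fun x => mean fun q : (G → Fin n) × (G → Z) =>
    f (pr (cst k (a x)) (cst k (a (upd q.1 q.2 x)))) with hψ₁
  set ψ₂ : (G × Fin n → Z) → E := fun x => mean fun q : (G → Fin n) × (G → Z) =>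
    f (pr (cst k (a (upd q.1 q.2 x))) (cst k (a x))) with hψ₂
  have v1 : ∀ x, (av fun q : (G → Fin n) × (G → Z) =>
      ‖f (pr (cst k (a x)) (cst k (a (upd q.1 q.2 x)))) - ψ₁ x‖ ^ 2) ≤ α ^ 2 / 2 := by
    intro x
    have h1 := conc x (fun t => f (pr (cst k (a x)) t)) (lip_left hκ hf (haB x) (haN x))
    rw [av_av_sub_sq] at h1
    have h2 : (av fun q : (G → Fin n) × (G → Z) =>
      ‖f (pr (cst k (a x)) (cst k (a (upd q.1 q.2 x)))) - ψ₁ x‖ ^ 2) * 2 ≤ α ^ 2 := by
      rw [mul_comm]; exact h1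
    linarith
  have v2 : ∀ x, (av fun q : (G → Fin n) × (G → Z) =>
      ‖f (pr (cst k (a (upd q.1 q.2 x))) (cst k (a x))) - ψ₂ x‖ ^ 2) ≤ α ^ 2 / 2 := by
    intro x
    have h1 := conc x (fun t => f (pr t (cst k (a x)))) (lip_right hκ hf (haB x) (haN x))
    rw [av_av_sub_sq] at h1
    have h2 : (av fun q : (G → Fin n) × (G → Z) =>
      ‖f (pr (cst k (a (upd q.1 q.2 x))) (cst k (a x))) - ψ₂ x‖ ^ 2) * 2 ≤ α ^ 2 := by
      rw [mul_comm]; exact h1
    linarith
  have hK : (av fun s : G → Fin n => av fun x : G × Fin n → Z => av fun ζ : G → Z =>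
      ‖ψ₁ x - ψ₂ (upd s ζ x)‖ ^ 2) ≤ 2 * α ^ 2 := by
    have hA : (av fun s : G → Fin n => av fun x : G × Fin n → Z => av fun ζ : G → Z =>
        ‖f (pr (cst k (a x)) (cst k (a (upd s ζ x)))) - ψ₁ x‖ ^ 2) ≤ α ^ 2 / 2 := by
      rw [av_comm]
      refine av_le fun x => ?_
      rw [← av_prod (fun q : (G → Fin n) × (G → Z) =>
        ‖f (pr (cst k (a x)) (cst k (a (upd q.1 q.2 x)))) - ψ₁ x‖ ^ 2)]
      exact v1 x
    have hC : (av fun s : G → Fin n => av fun x : G × Fin n → Z => av fun ζ : G → Z =>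
        ‖f (pr (cst k (a x)) (cst k (a (upd s ζ x)))) - ψ₂ (upd s ζ x)‖ ^ 2) ≤ α ^ 2 / 2 := by
      have h1 : ∀ s : G → Fin n, (av fun x : G × Fin n → Z => av fun ζ : G → Z =>
          ‖f (pr (cst k (a x)) (cst k (a (upd s ζ x)))) - ψ₂ (upd s ζ x)‖ ^ 2)
          = av fun x : G × Fin n → Z => av fun ζ : G → Z =>
            ‖f (pr (cst k (a (upd s ζ x))) (cst k (a x))) - ψ₂ x‖ ^ 2 := by
        intro s
        rw [av_swp s]
        simp only [upd_upd, upd_res]
      simp only [h1]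
      rw [av_comm]
      refine av_le fun x => ?_
      rw [← av_prod (fun q : (G → Fin n) × (G → Z) =>
        ‖f (pr (cst k (a (upd q.1 q.2 x))) (cst k (a x))) - ψ₂ x‖ ^ 2)]
      exact v2 x
    calc (av fun s : G → Fin n => av fun x : G × Fin n → Z => av fun ζ : G → Z =>
          ‖ψ₁ x - ψ₂ (upd s ζ x)‖ ^ 2)
        ≤ av fun s : G → Fin n => av fun x : G × Fin n → Z => av fun ζ : G → Z =>
          (2 * ‖f (pr (cst k (a x)) (cst k (a (upd s ζ x)))) - ψ₁ x‖ ^ 2
            + 2 * ‖f (pr (cst k (a x)) (cst k (a (upd s ζ x)))) - ψ₂ (upd s ζ x)‖ ^ 2) := by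
          refine av_mono fun s => av_mono fun x => av_mono fun ζ => ?_
          have e1 : ψ₁ x - ψ₂ (upd s ζ x)
              = (ψ₁ x - f (pr (cst k (a x)) (cst k (a (upd s ζ x)))))
                + (f (pr (cst k (a x)) (cst k (a (upd s ζ x)))) - ψ₂ (upd s ζ x)) := by abel
          rw [e1, norm_sub_rev (f (pr (cst k (a x)) (cst k (a (upd s ζ x))))) (ψ₁ x)]
          exact norm_add_sq_le_two _ _
      _ = 2 * (av fun s : G → Fin n => av fun x : G × Fin n → Z => av fun ζ : G → Z =>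
            ‖f (pr (cst k (a x)) (cst k (a (upd s ζ x)))) - ψ₁ x‖ ^ 2)
          + 2 * (av fun s : G → Fin n => av fun x : G × Fin n → Z => av fun ζ : G → Z =>
            ‖f (pr (cst k (a x)) (cst k (a (upd s ζ x)))) - ψ₂ (upd s ζ x)‖ ^ 2) := by
          simp only [av_add, av_mul]
      _ ≤ 2 * α ^ 2 := by linarith
  have hpair := pair_bound ψ₁ ψ₂ hK
  -- the average of the two conditional means
  set ψ : (G × Fin n → Z) → E := fun x => (1 / 2 : ℝ) • (ψ₁ x + ψ₂ x) with hψ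
  have hnn : (0 : ℝ) ≤ n := Nat.cast_nonneg n
  have hψE : (av fun x : G × Fin n → Z => av fun x' : G × Fin n → Z => ‖ψ x - ψ x'‖ ^ 2)
      ≤ (√(2 * n) * α) ^ 2 := by
    rw [mul_pow, Real.sq_sqrt (by positivity)]
    calc (av fun x : G × Fin n → Z => av fun x' : G × Fin n → Z => ‖ψ x - ψ x'‖ ^ 2)
        ≤ av fun x : G × Fin n → Z => av fun x' : G × Fin n → Z =>
          ((1 / 2) * ‖ψ₁ x - ψ₁ x'‖ ^ 2 + (1 / 2) * ‖ψ₂ x - ψ₂ x'‖ ^ 2) := by
          refine av_mono fun x => av_mono fun x' => ?_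
          have e1 : ψ x - ψ x' = (1 / 2 : ℝ) • ((ψ₁ x - ψ₁ x') + (ψ₂ x - ψ₂ x')) := by
            simp only [hψ]
            rw [← smul_sub]
            congr 1
            abel
          rw [e1, norm_smul, mul_pow]
          have := norm_add_sq_le_two (ψ₁ x - ψ₁ x') (ψ₂ x - ψ₂ x')
          have e2 : ‖(1 / 2 : ℝ)‖ ^ 2 = 1 / 4 := by norm_num
          rw [e2]
          linarith
      _ = (1 / 2) * (av fun x : G × Fin n → Z => av fun x' : G × Fin n → Z =>
            ‖ψ₁ x - ψ₁ x'‖ ^ 2)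
          + (1 / 2) * (av fun x : G × Fin n → Z => av fun x' : G × Fin n → Z =>
            ‖ψ₂ x - ψ₂ x'‖ ^ 2) := by
          simp only [av_add, av_mul]
      _ ≤ 2 * n * α ^ 2 := by nlinarith
  set F' : ℝ := M' * √(lamb κ ξ ^ k * S.η (k + 1)) with hF'
  have hF'0 : 0 ≤ F' := by positivity
  have hcl : ∀ z, ‖f (cst (k + 1) (a z)) - ψ z‖ ≤ F' := by
    intro z
    have hz : a z ∈ B ∩ {b | hd (G := G₀) (Z := Bool) (a z) b ≤ S.η (k + 1)} := by
      refine ⟨haB z, ?_⟩
      show hd (G := G₀) (Z := Bool) (a z) (a z) ≤ _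
      rw [hd_self]; exact S.η_nonneg _
    have hq : ∀ q : (G → Fin n) × (G → Z),
        a (upd q.1 q.2 z) ∈ B ∩ {b | hd (G := G₀) (Z := Bool) (a z) b ≤ S.η (k + 1)} :=
      fun q => ⟨haB _, close z _ _ (k + 1) (k + 1) le_rfl le_rfl⟩
    have h1 : ‖f (cst (k + 1) (a z)) - ψ₁ z‖ ≤ F' := by
      refine norm_sub_mean_le _ _ fun q => ?_
      exact lip_const hκ hξ hM'0 (lip_left hκ hf (haB z) (haN z)) hz (hq q)
        (S.N_anti k (haN _)) (S.N_anti k (haN _)) (close z _ _ (k + 1) (k + 1) le_rfl le_rfl)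
    have h2 : ‖f (cst (k + 1) (a z)) - ψ₂ z‖ ≤ F' := by
      refine norm_sub_mean_le _ _ fun q => ?_
      exact lip_const hκ hξ hM'0 (lip_right hκ hf (haB z) (haN z)) hz (hq q)
        (S.N_anti k (haN _)) (S.N_anti k (haN _)) (close z _ _ (k + 1) (k + 1) le_rfl le_rfl)
    have e1 : f (cst (k + 1) (a z)) - ψ z
        = (1 / 2 : ℝ) • ((f (cst (k + 1) (a z)) - ψ₁ z) + (f (cst (k + 1) (a z)) - ψ₂ z)) := by
      simp only [hψ, smul_add, smul_sub]
      have : f (cst (k + 1) (a z)) = (1 / 2 : ℝ) • f (cst (k + 1) (a z))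
          + (1 / 2 : ℝ) • f (cst (k + 1) (a z)) := by
        rw [← add_smul]; norm_num
      conv_lhs => rw [this]
      abel
    rw [e1, norm_smul]
    have h3 := norm_add_le (f (cst (k + 1) (a z)) - ψ₁ z) (f (cst (k + 1) (a z)) - ψ₂ z)
    have e2 : ‖(1 / 2 : ℝ)‖ = 1 / 2 := by norm_num
    rw [e2]
    linarith
  have hgoal : M * (√(2 * n) * (√(1 + κ) * (β + 2 * √(lamb κ ξ ^ k * S.δ k)))
        + 2 * (√(1 + κ) * √(lamb κ ξ ^ k * S.η (k + 1)))) = √(2 * n) * α + 2 * F' := by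
    rw [hα, hF', hM']; ring
  rw [hgoal]
  rw [← av_prod (fun r : (G × Fin n → Z) × (G × Fin n → Z) =>
    ‖f (cst (k + 1) (a r.1)) - f (cst (k + 1) (a r.2))‖ ^ 2)]
  rw [← av_prod (fun r : (G × Fin n → Z) × (G × Fin n → Z) => ‖ψ r.1 - ψ r.2‖ ^ 2)] at hψE
  refine av_sq_le (by positivity) (by positivity) (fun r => norm_nonneg _) (fun r => ?_) hψE
  have e3 : f (cst (k + 1) (a r.1)) - f (cst (k + 1) (a r.2))
      = (f (cst (k + 1) (a r.1)) - ψ r.1) + (ψ r.1 - ψ r.2)
        + (ψ r.2 - f (cst (k + 1) (a r.2))) := by abel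
  rw [e3]
  refine (norm_add₃_le).trans ?_
  rw [norm_sub_rev (ψ r.2)]
  have := hcl r.1
  have := hcl r.2
  linarith

end

end H799N
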